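import Pool.Agent.Y760.ST.Stm

/-!
# Project ST: Laurent monomials in the values at the arguments `a n + b`

Statements of the parts.
-/

set_option autoImplicit false

namespace Pool.Agent.Y760.ST

open Filter Topology Pool.Agent.TH507.ZS

/-- ST-Z2: multiplicative functions with different values at powers of the primes -/
def Z2Stmt : Prop :=
  ∀ (r l0 A : ℕ) (c : Fin (r + 1) → ℕ → ℚ), (∀ i, c i 1 = 1) →
    (∀ i a b, Nat.Coprime a b → c i (a * b) = c i a * c i b) →
    (∀ i j, i ≠ j → ∃ k, 1 ≤ k ∧ k ≤ A ∧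
      ∀ l, l.Prime → l0 < l → c i (l ^ k) ≠ c j (l ^ k)) →
    ∃ T : ℝ, 0 < T ∧ NV r c T

/-- the function with the value `f l` at `l ^ a` -/
noncomputable def dil (a : ℕ) (f : ArithmeticFunction ℚ) : ArithmeticFunction ℚ :=
  ⟨fun k => ∑ l ∈ Finset.range (k + 1), if l ^ a = k then f l else 0, by
    rw [zero_add, Finset.sum_range_one, ArithmeticFunction.map_zero, ite_self]⟩

/-- the Laurent monomial with exponents `e a b` at `(a + 1) n + b` -/
noncomputable def lau (f g : ArithmeticFunction ℚ) (A h : ℕ) (e : Fin A → Fin h → ℤ) :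
    ArithmeticFunction ℚ :=
  ∏ a : Fin A, ∏ b : Fin h, (dil (a + 1) (sh f b) ^ (e a b).toNat *
    dil (a + 1) (sh g b) ^ (-(e a b)).toNat)

/-- ST-LAU: the Dirichlet series of the Laurent monomials -/
def LauStmt : Prop :=
  ∀ (f g : ArithmeticFunction ℚ), f.IsMultiplicative → g.IsMultiplicative → PB f → PB g →
    f * g = 1 → ∀ (A h : ℕ) (e : Fin A → Fin h → ℤ),
    (lau f g A h e).IsMultiplicative ∧ PB (lau f g A h e) ∧
      ∃ n1 : ℕ, ∀ n, n1 ≤ n → dser (lau f g A h e) n =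
        ∏ a : Fin A, ∏ b : Fin h, dser f ((a + 1) * n + b) ^ e a b

/-- ST-SEP: different Laurent monomials have different coefficients at a power of all large
primes -/
def SepStmt : Prop :=
  ∀ (f g : ArithmeticFunction ℚ), f.IsMultiplicative → g.IsMultiplicative →
    ∀ κ : ℚ, κ ≠ 0 → (∀ p : ℕ, p.Prime → f p = κ) → (∀ p : ℕ, p.Prime → g p = -κ) →
    ∀ (A h : ℕ) (e e' : Fin A → Fin h → ℤ), e ≠ e' →
      ∃ k l0 : ℕ, 1 ≤ k ∧ k ≤ A ∧ ∀ p : ℕ, p.Prime → l0 < p →
        lau f g A h e (p ^ k) ≠ lau f g A h e' (p ^ k)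

end Pool.Agent.Y760.ST
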