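import Pool.Agent.Y760.ST.Stm
import Pool.Agent.TH507.WD.C

/-!
# Project ST: the words functions at small coprime integers

Statement of the part. `List (ℕ+ × ℕ)` are the words in the letters `(a, b)`, which stand for the
arguments `a n + b`; `cf 1 w` is the arithmetic function of the word (`Pool.Agent.TH507.WD`).
-/

set_option autoImplicit false

namespace Pool.Agent.Y760.ST

open Pool.Agent.TH507.WD

/-- ST-NVW: quantitative independence of the functions of finitely many words -/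
def NvwStmt : Prop :=
  ∀ (Λ : Finset (List (ℕ+ × ℕ))) (c0 : ℝ), ∃ T : ℝ, 0 < T ∧ ∀ s : ℝ, T ≤ s →
    ∀ h : ℕ, 1 ≤ h → Real.log h ≤ c0 * s →
    ∀ x : List (ℕ+ × ℕ) → ℚ, (∃ w ∈ Λ, x w ≠ 0) →
      ∃ K : ℕ, 1 ≤ K ∧ Real.log K ≤ s ∧ Nat.Coprime h K ∧ ∑ w ∈ Λ, x w * cf 1 w K ≠ 0

end Pool.Agent.Y760.ST
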