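import Pool.Agent.Y760.ST.Main
import Pool.Agent.Y760.ST.Stm3
import Pool.Agent.TH507.WD.D
import Pool.Agent.Y760.RT.Ser

/-!
# Project ST: multiple zeta values at the arguments `a n + b` (helper760)
-/

set_option autoImplicit false

namespace Pool.Agent.Y760.ST

open Filter Topology Pool.Agent.TH507.ZS Pool.Agent.TH507.WD Pool.Agent.Y760.RT

lemma tail_add {c d α β : ℕ → ℝ} (h : Tail c α) (h' : Tail d β) :
    Tail (fun k => c k + d k) (fun n => α n + β n) := by
  intro M
  obtain ⟨A, hA⟩ := h M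
  obtain ⟨A', hA'⟩ := h' M
  refine ⟨A + A', ?_⟩
  filter_upwards [hA, hA'] with k h1 h2
  have h3 : α k + β k - ∑ j ∈ Finset.Icc 1 M, (c j + d j) / (j : ℝ) ^ k =
      (α k - ∑ j ∈ Finset.Icc 1 M, c j / (j : ℝ) ^ k) +
        (β k - ∑ j ∈ Finset.Icc 1 M, d j / (j : ℝ) ^ k) := by
    rw [Finset.sum_congr rfl fun j _ => add_div (c j) (d j) ((j : ℝ) ^ k),
      Finset.sum_add_distrib]
    ring
  rw [h3, add_div]
  exact (abs_add_le _ _).trans (add_le_add h1 h2)

lemma tail_zero : Tail (fun _ => 0) (fun _ => 0) := by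
  intro M
  refine ⟨0, Eventually.of_forall fun k => ?_⟩
  simp

lemma tail_sum {ι : Type} (s : Finset ι) (c α : ι → ℕ → ℝ) (h : ∀ i ∈ s, Tail (c i) (α i)) :
    Tail (fun k => ∑ i ∈ s, c i k) (fun n => ∑ i ∈ s, α i n) := by
  classical
  induction s using Finset.induction_on with
  | empty =>
    simp only [Finset.sum_empty]
    exact tail_zero
  | insert i s hi ih =>
    simp only [Finset.sum_insert hi]
    exact tail_add (h i (Finset.mem_insert_self _ _))
      (ih fun j hj => h j (Finset.mem_insert_of_mem hj))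

lemma tail_congr {c α β : ℕ → ℝ} (h : Tail c α) {n1 : ℕ} (hβ : ∀ n, n1 ≤ n → β n = α n) :
    Tail c β := by
  intro M
  obtain ⟨A, hA⟩ := h M
  refine ⟨A, ?_⟩
  filter_upwards [hA, eventually_ge_atTop n1] with k h1 h2
  rw [hβ k h2]
  exact h1

/-- the series of a word -/
lemma tail_word (w : List (ℕ+ × ℕ)) :
    Tail (fun k => (cf 1 w k : ℝ)) (fun n => mz (ar n w)) := by
  have h1 : 2 ^ w.length ≤ 2 ^ w.length + w.length := Nat.le_add_right _ _
  have h2 : w.length ≤ 2 ^ w.length + w.length := Nat.le_add_left _ _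
  exact tail_congr (tail_dser (cf_bd w h1 h2)) (n1 := 2 ^ w.length + w.length + 2)
    fun n hn => (dser_eq_mz w h1 h2 hn).symm

/-- the value of a rational combination of words -/
noncomputable def valW (n : ℕ) : (List (ℕ+ × ℕ) →₀ ℚ) →ₗ[ℚ] ℝ :=
  Finsupp.linearCombination ℚ fun w => mz (ar n w)

/-- the value of a rational combination of products of words -/
noncomputable def valP (n : ℕ) : (List (List (ℕ+ × ℕ)) →₀ ℚ) →ₗ[ℚ] ℝ :=
  Finsupp.linearCombination ℚ fun M => (M.map fun u => mz (ar n u)).prod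

/-- the stuffle expansion -/
noncomputable def expand : (List (List (ℕ+ × ℕ)) →₀ ℚ) →ₗ[ℚ] (List (ℕ+ × ℕ) →₀ ℚ) :=
  Finsupp.linearCombination ℚ fun M => ((stl M).map fun w => Finsupp.single w 1).sum

lemma valP_eq {n : ℕ} (hn : 2 ≤ n) (x : List (List (ℕ+ × ℕ)) →₀ ℚ) :
    valP n x = valW n (expand x) := by
  have h : valP n = (valW n).comp expand := by
    refine Finsupp.lhom_ext fun M c => ?_
    unfold valP valW expand
    rw [LinearMap.comp_apply, Finsupp.linearCombination_single, Finsupp.linearCombination_single,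
      map_smul, mz_prod hn]
    congr 1
    generalize stl M = L
    induction L with
    | nil => simp
    | cons w L ih =>
      rw [List.map_cons, List.sum_cons, List.map_cons, List.sum_cons, map_add, ← ih,
        Finsupp.linearCombination_single, one_smul]
  rw [h]
  rfl

/-- **Schmidt's theorem for combinations of multiple zeta values**, relative to `NvwStmt` -/
theorem wdMain' (hnv : NvwStmt) {r : ℕ} (y : Fin (r + 1) → List (ℕ+ × ℕ) →₀ ℚ)
    (hli : LinearIndependent ℚ y) (h0 : y 0 = Finsupp.single [] 1) :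
    ∃ D : ℝ, 1 < D ∧ ∀ C B : ℝ, 1 < B → ∃ n0 : ℕ, ∀ n : ℕ, n0 ≤ n → ∀ H : ℝ, D ^ n ≤ H →
      H ≤ C ^ n → ∀ q : Fin (r + 1) → ℤ, q ≠ 0 → (∀ i, |(q i : ℝ)| ≤ H) →
        1 / (H ^ r * B ^ n) < |∑ i, (q i : ℝ) * valW n (y i)| := by
  classical
  set Λ : Finset (List (ℕ+ × ℕ)) := Finset.univ.biUnion fun i => (y i).support with hΛ
  have hmem : ∀ i w, w ∉ Λ → y i w = 0 := by
    intro i w hw
    by_contra hne
    exact hw (Finset.mem_biUnion.2 ⟨i, Finset.mem_univ _, Finsupp.mem_support_iff.2 hne⟩)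
  set c : Fin (r + 1) → ℕ → ℚ := fun i K => ∑ w ∈ Λ, y i w * cf 1 w K with hc
  have hval : ∀ i n, valW n (y i) = ∑ w ∈ Λ, (y i w : ℝ) * mz (ar n w) := by
    intro i n
    unfold valW
    rw [Finsupp.linearCombination_apply, Finsupp.sum]
    have hsub : (y i).support ⊆ Λ := fun w hw =>
      Finset.mem_biUnion.2 ⟨i, Finset.mem_univ _, hw⟩
    rw [Finset.sum_subset hsub fun w _ hw => by
      rw [Finsupp.notMem_support_iff.1 hw, zero_smul]]
    exact Finset.sum_congr rfl fun w _ => by rw [Rat.smul_def]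
  have hT : ∀ i, Tail (fun k => (c i k : ℝ)) (fun n => valW n (y i)) := by
    intro i
    have h1 : Tail (fun k => ∑ w ∈ Λ, (y i w : ℝ) * (cf 1 w k : ℝ))
        (fun n => ∑ w ∈ Λ, (y i w : ℝ) * mz (ar n w)) :=
      tail_sum Λ (fun w k => (y i w : ℝ) * (cf 1 w k : ℝ))
        (fun w n => (y i w : ℝ) * mz (ar n w)) fun w _ => (tail_word w).mul _
    have h2 : (fun k => (c i k : ℝ)) = fun k => ∑ w ∈ Λ, (y i w : ℝ) * (cf 1 w k : ℝ) := by
      funext k
      rw [hc]
      push_cast
      rfl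
    have h3 : (fun n => valW n (y i)) = fun n => ∑ w ∈ Λ, (y i w : ℝ) * mz (ar n w) :=
      funext fun n => hval i n
    rw [h2, h3]
    exact h1
  have hc0 : c 0 1 ≠ 0 := by
    rw [hc]
    simp only
    have hnil : [] ∈ Λ := by
      refine Finset.mem_biUnion.2 ⟨0, Finset.mem_univ _, ?_⟩
      rw [h0, Finsupp.mem_support_iff, Finsupp.single_eq_same]
      exact one_ne_zero
    rw [Finset.sum_eq_single []]
    · rw [h0, Finsupp.single_eq_same, Pool.Agent.TH507.WD.cf, T_nil, if_pos rfl, one_mul]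
      exact one_ne_zero
    · intro w _ hw
      rw [h0, Finsupp.single_eq_of_ne hw, zero_mul]
    · intro h
      exact absurd hnil h
  obtain ⟨T, hT0, hTT⟩ := hnv Λ (((r : ℝ) + 1) ^ 2)
  have hNV : NV r c T := by
    intro s hs h hh hlog b hb
    obtain ⟨K, hK1, hKs, hco, hne⟩ := hTT s hs h hh hlog (fun w => ∑ i, b i * y i w) (by
      by_contra hcon
      push Not at hcon
      apply hb
      have h1 : ∑ i, b i • y i = 0 := by
        ext w
        rw [Finsupp.finsetSum_apply, Finsupp.zero_apply]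
        by_cases hw : w ∈ Λ
        · rw [← hcon w hw]
          exact Finset.sum_congr rfl fun i _ => by rw [Finsupp.smul_apply, smul_eq_mul]
        · exact Finset.sum_eq_zero fun i _ => by
            rw [Finsupp.smul_apply, hmem i w hw, smul_zero]
      funext i
      exact Fintype.linearIndependent_iff.1 hli b h1 i)
    refine ⟨K, hK1, hKs, hco, ?_⟩
    intro h1
    apply hne
    rw [← h1, hc]
    simp only [Finset.sum_mul, Finset.mul_sum]
    rw [Finset.sum_comm]
    refine Finset.sum_congr rfl fun i _ => Finset.sum_congr rfl fun w _ => ?_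
    ring
  refine ⟨Real.exp T, Real.one_lt_exp_iff.2 hT0, fun C B hB => ?_⟩
  obtain ⟨n0, hn0⟩ := mainS r c (fun i n => valW n (y i)) hT hc0 T hT0.le hNV C B hB
  refine ⟨n0, fun n hn H hH1 hH2 q hq hqH => hn0 n hn H ?_ hH2 q hq hqH⟩
  rw [mul_comm, Real.exp_nat_mul]
  exact hH1

end Pool.Agent.Y760.ST
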