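import Pool.Agent.Y760.ST.MnA
import Pool.Agent.Y760.ST.Wd
import Pool.Agent.Y760.ST.Stm2
import Pool.Agent.Y43.ST2.Lau
import Pool.Agent.Y406.ST.Sep
import Pool.Agent.Y93.ST.Nvw
import Pool.Agent.Y810.ST.Z2

/-!
# Project ST: final theorems with algebraic coefficients (helper760; parts by helper43, helper93,
helper109, helper379, helper406, helper810, helper919)
-/

set_option autoImplicit false

namespace Pool.Agent.Y760.ST

open Filter Topology Pool.Agent.TH507.ZS Pool.Agent.TH507.WD Pool.Agent.Y760.RT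

/-- the nonvanishing condition, any finite index set -/
def NVI {ι : Type} [Fintype ι] (c : ι → ℕ → ℝ) (T : ℝ) : Prop :=
  ∀ s : ℝ, T ≤ s → ∀ h : ℕ, 1 ≤ h → Real.log h ≤ (Fintype.card ι : ℝ) ^ 2 * s →
    ∀ b : ι → ℚ, b ≠ 0 →
      ∃ l : ℕ, 1 ≤ l ∧ Real.log l ≤ s ∧ Nat.Coprime h l ∧ ∑ i, (b i : ℝ) * c i l ≠ 0

/-- the main theorem for any finite index set -/
theorem mainI {ι : Type} [Fintype ι] (i0 : ι) (c : ι → ℕ → ℝ)
    (hcalg : ∀ i k, IsAlgebraic ℚ (c i k)) (α : ι → ℕ → ℝ) (hT : ∀ i, Tail (c i) (α i))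
    (hc : c i0 1 ≠ 0) (T : ℝ) (hT0 : 0 ≤ T) (hNV : NVI c T) (C B : ℝ) (hB : 1 < B) :
    ∃ n0 : ℕ, ∀ n : ℕ, n0 ≤ n → ∀ H : ℝ, Real.exp (T * n) ≤ H → H ≤ C ^ n →
      ∀ q : ι → ℤ, q ≠ 0 → (∀ i, |(q i : ℝ)| ≤ H) →
        1 / (H ^ (Fintype.card ι - 1) * B ^ n) < |∑ i, (q i : ℝ) * α i n| := by
  classical
  obtain ⟨r, hr⟩ : ∃ r, Fintype.card ι = r + 1 :=
    ⟨Fintype.card ι - 1, by
      have h1 : 0 < Fintype.card ι := Fintype.card_pos_iff.2 ⟨i0⟩
      omega⟩
  set e0 : ι ≃ Fin (r + 1) := Fintype.equivFinOfCardEq hr with he0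
  set e : ι ≃ Fin (r + 1) := e0.trans (Equiv.swap (e0 i0) 0) with he
  have hei : e.symm 0 = i0 := by
    rw [Equiv.symm_apply_eq, he, Equiv.trans_apply, Equiv.swap_apply_left]
  have hr1 : Fintype.card ι - 1 = r := by omega
  obtain ⟨n0, hn0⟩ := mainA r (fun i => c (e.symm i)) (fun i k => hcalg _ _)
    (fun i => α (e.symm i)) (fun i => hT _) (by rw [hei]; exact hc) T hT0 (by
      intro s hs h hh hlog b hb
      obtain ⟨l, h1, h2, h3, h4⟩ := hNV s hs h hh (by
        rw [hr]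
        push_cast
        exact hlog) (fun i => b (e i)) (by
        intro h5
        apply hb
        funext i
        have h6 := congrFun h5 (e.symm i)
        simp only [Equiv.apply_symm_apply] at h6
        exact h6)
      refine ⟨l, h1, h2, h3, ?_⟩
      intro h5
      apply h4
      rw [← h5]
      rw [← Equiv.sum_comp e]
      exact Finset.sum_congr rfl fun i _ => by simp only [Equiv.symm_apply_apply]) C B hB
  refine ⟨n0, fun n hn H hH1 hH2 q hq hqH => ?_⟩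
  have h1 := hn0 n hn H hH1 hH2 (fun i => q (e.symm i)) (by
    intro h2
    apply hq
    funext i
    have h3 := congrFun h2 (e i)
    simp only [Equiv.symm_apply_apply] at h3
    exact h3) (fun i => hqH _)
  rw [hr1]
  refine lt_of_lt_of_le h1 (le_of_eq ?_)
  congr 1
  rw [← Equiv.sum_comp e]
  exact Finset.sum_congr rfl fun i _ => by simp only [Equiv.symm_apply_apply]

/-- multiplication of the series by algebraic numbers -/
theorem mainB {l : ℕ} {r : ℕ} (β : Fin l → ℝ) (hβ : ∀ j, IsAlgebraic ℚ (β j))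
    (hβi : LinearIndependent ℚ β) (c : Fin (r + 1) → ℕ → ℚ) (α : Fin (r + 1) → ℕ → ℝ)
    (hT : ∀ i, Tail (fun k => (c i k : ℝ)) (α i)) (hc : c 0 1 ≠ 0) (T : ℝ) (hT0 : 0 ≤ T)
    (hNV : ∀ s : ℝ, T ≤ s → ∀ h : ℕ, 1 ≤ h →
      Real.log h ≤ ((l : ℝ) * ((r : ℝ) + 1)) ^ 2 * s → ∀ b : Fin (r + 1) → ℚ, b ≠ 0 →
      ∃ l : ℕ, 1 ≤ l ∧ Real.log l ≤ s ∧ Nat.Coprime h l ∧ ∑ i, b i * c i l ≠ 0)
    (C B : ℝ) (hB : 1 < B) :
    ∃ n0 : ℕ, ∀ n : ℕ, n0 ≤ n → ∀ H : ℝ, Real.exp (T * n) ≤ H → H ≤ C ^ n →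
      ∀ q : Fin l → Fin (r + 1) → ℤ, q ≠ 0 → (∀ j i, |(q j i : ℝ)| ≤ H) →
        1 / (H ^ (l * (r + 1) - 1) * B ^ n) < |∑ j, ∑ i, (q j i : ℝ) * (β j * α i n)| := by
  classical
  rcases Nat.eq_zero_or_pos l with rfl | hl
  · exact ⟨0, fun n _ H _ _ q hq => absurd (funext fun j => j.elim0) hq⟩
  have hcard : Fintype.card (Fin l × Fin (r + 1)) = l * (r + 1) := by
    rw [Fintype.card_prod, Fintype.card_fin, Fintype.card_fin]
  obtain ⟨n0, hn0⟩ := mainI (ι := Fin l × Fin (r + 1)) (⟨0, hl⟩, 0)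
    (fun x k => β x.1 * (c x.2 k : ℝ)) (fun x k => (hβ x.1).mul (alg_rat _))
    (fun x n => β x.1 * α x.2 n) (fun x => (hT x.2).mul (β x.1))
    (mul_ne_zero (hβi.ne_zero _) (by exact_mod_cast hc)) T hT0 (by
      intro s hs h hh hlog b hb
      obtain ⟨j, hj⟩ : ∃ j, (fun i => b (j, i)) ≠ 0 := by
        by_contra hcon
        push Not at hcon
        exact hb (funext fun x => congrFun (hcon x.1) x.2)
      obtain ⟨K, h1, h2, h3, h4⟩ := hNV s hs h hh (by
        rw [hcard] at hlog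
        push_cast at hlog
        exact hlog) (fun i => b (j, i)) hj
      refine ⟨K, h1, h2, h3, ?_⟩
      intro h5
      apply h4
      have h6 : ∑ j, (∑ i, b (j, i) * c i K) • β j = 0 := by
        rw [← h5, Fintype.sum_prod_type]
        refine Finset.sum_congr rfl fun j _ => ?_
        rw [Rat.smul_def]
        push_cast
        rw [Finset.sum_mul]
        exact Finset.sum_congr rfl fun i _ => by ring
      exact Fintype.linearIndependent_iff.1 hβi _ h6 j) C B hB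
  refine ⟨n0, fun n hn H hH1 hH2 q hq hqH => ?_⟩
  have h1 := hn0 n hn H hH1 hH2 (fun x => q x.1 x.2) (by
    intro h2
    apply hq
    funext j i
    exact congrFun h2 (j, i)) (fun x => hqH _ _)
  rw [hcard, Fintype.sum_prod_type] at h1
  exact h1

/-- **polynomials in multiple zeta values** -/
theorem wdMain {l r : ℕ} (β : Fin l → ℝ) (hβ : ∀ j, IsAlgebraic ℚ (β j))
    (hβi : LinearIndependent ℚ β) (y : Fin (r + 1) → List (ℕ+ × ℕ) →₀ ℚ)
    (hli : LinearIndependent ℚ y) (h0 : y 0 = Finsupp.single [] 1) :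
    ∃ D : ℝ, 1 < D ∧ ∀ C B : ℝ, 1 < B → ∃ n0 : ℕ, ∀ n : ℕ, n0 ≤ n → ∀ H : ℝ, D ^ n ≤ H →
      H ≤ C ^ n → ∀ q : Fin l → Fin (r + 1) → ℤ, q ≠ 0 → (∀ j i, |(q j i : ℝ)| ≤ H) →
        1 / (H ^ (l * (r + 1) - 1) * B ^ n) <
          |∑ j, ∑ i, (q j i : ℝ) * (β j * valW n (y i))| := by
  classical
  set Λ : Finset (List (ℕ+ × ℕ)) := Finset.univ.biUnion fun i => (y i).support with hΛ
  have hmem : ∀ i w, w ∉ Λ → y i w = 0 := by
    intro i w hw
    by_contra hne
    exact hw (Finset.mem_biUnion.2 ⟨i, Finset.mem_univ _, Finsupp.mem_support_iff.2 hne⟩)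
  set c : Fin (r + 1) → ℕ → ℚ :=
    fun i K => ∑ w ∈ Λ, y i w * Pool.Agent.TH507.WD.cf 1 w K with hc
  have hval : ∀ i n, valW n (y i) = ∑ w ∈ Λ, (y i w : ℝ) * mz (ar n w) := by
    intro i n
    unfold valW
    rw [Finsupp.linearCombination_apply, Finsupp.sum]
    have hsub : (y i).support ⊆ Λ := fun w hw =>
      Finset.mem_biUnion.2 ⟨i, Finset.mem_univ _, hw⟩
    rw [Finset.sum_subset hsub fun w _ hw => by
      rw [Finsupp.notMem_support_iff.1 hw, zero_smul]]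
    exact Finset.sum_congr rfl fun w _ => by rw [Rat.smul_def]
  have hT : ∀ i, Tail (fun k => (c i k : ℝ)) (fun n => valW n (y i)) := by
    intro i
    have h1 : Tail (fun k => ∑ w ∈ Λ, (y i w : ℝ) * (Pool.Agent.TH507.WD.cf 1 w k : ℝ))
        (fun n => ∑ w ∈ Λ, (y i w : ℝ) * mz (ar n w)) :=
      tail_sum Λ (fun w k => (y i w : ℝ) * (Pool.Agent.TH507.WD.cf 1 w k : ℝ))
        (fun w n => (y i w : ℝ) * mz (ar n w)) fun w _ => (tail_word w).mul _
    have h2 : (fun k => (c i k : ℝ)) =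
        fun k => ∑ w ∈ Λ, (y i w : ℝ) * (Pool.Agent.TH507.WD.cf 1 w k : ℝ) := by
      funext k
      rw [hc]
      push_cast
      rfl
    have h3 : (fun n => valW n (y i)) = fun n => ∑ w ∈ Λ, (y i w : ℝ) * mz (ar n w) :=
      funext fun n => hval i n
    rw [h2, h3]
    exact h1
  have hc0 : c 0 1 ≠ 0 := by
    rw [hc]
    simp only
    have hnil : [] ∈ Λ := by
      refine Finset.mem_biUnion.2 ⟨0, Finset.mem_univ _, ?_⟩
      rw [h0, Finsupp.mem_support_iff, Finsupp.single_eq_same]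
      exact one_ne_zero
    rw [Finset.sum_eq_single []]
    · rw [h0, Finsupp.single_eq_same, Pool.Agent.TH507.WD.cf, T_nil, if_pos rfl, one_mul]
      exact one_ne_zero
    · intro w _ hw
      rw [h0, Finsupp.single_eq_of_ne hw, zero_mul]
    · intro h
      exact absurd hnil h
  obtain ⟨T, hT0, hTT⟩ := Pool.Agent.Y93.ST.nvw Λ (((l : ℝ) * ((r : ℝ) + 1)) ^ 2)
  refine ⟨Real.exp T, Real.one_lt_exp_iff.2 hT0, fun C B hB => ?_⟩
  obtain ⟨n0, hn0⟩ := mainB β hβ hβi c (fun i n => valW n (y i)) hT hc0 T hT0.le (by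
    intro s hs h hh hlog b hb
    obtain ⟨K, hK1, hKs, hco, hne⟩ := hTT s hs h hh hlog (fun w => ∑ i, b i * y i w) (by
      by_contra hcon
      push Not at hcon
      apply hb
      have h1 : ∑ i, b i • y i = 0 := by
        ext w
        rw [Finsupp.finsetSum_apply, Finsupp.zero_apply]
        by_cases hw : w ∈ Λ
        · rw [← hcon w hw]
          exact Finset.sum_congr rfl fun i _ => by rw [Finsupp.smul_apply, smul_eq_mul]
        · exact Finset.sum_eq_zero fun i _ => by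
            rw [Finsupp.smul_apply, hmem i w hw, smul_zero]
      funext i
      exact Fintype.linearIndependent_iff.1 hli b h1 i)
    refine ⟨K, hK1, hKs, hco, ?_⟩
    intro h1
    apply hne
    rw [← h1, hc]
    simp only [Finset.sum_mul, Finset.mul_sum]
    rw [Finset.sum_comm]
    refine Finset.sum_congr rfl fun i _ => Finset.sum_congr rfl fun w _ => ?_
    ring) C B hB
  refine ⟨n0, fun n hn H hH1 hH2 q hq hqH => hn0 n hn H ?_ hH2 q hq hqH⟩
  rw [mul_comm, Real.exp_nat_mul]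
  exact hH1

end Pool.Agent.Y760.ST
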