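import Pool.Agent.Y810.ST.Z2Core

/-!
# Nonvanishing of combinations of multiplicative functions, any constant (helper760; adaptation of
`Pool.Agent.Y810.ST.Z2Core` of helper810 and `Pool.Agent.Y109.ST.ZCore` of helper109)
-/

set_option autoImplicit false

namespace Pool.Agent.Y760.ST

theorem zc (r l0 A : ℕ) (c0 : ℝ) (hc0 : 1 ≤ c0) (c : Fin (r + 1) → ℕ → ℚ) (h1 : ∀ i, c i 1 = 1)
    (hmul : ∀ i a b, Nat.Coprime a b → c i (a * b) = c i a * c i b)
    (hne : ∀ i j, i ≠ j → ∃ k, 1 ≤ k ∧ k ≤ A ∧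
      ∀ l, l.Prime → l0 < l → c i (l ^ k) ≠ c j (l ^ k)) :
    ∃ T : ℝ, 0 < T ∧ ∀ s : ℝ, T ≤ s → ∀ h : ℕ, 1 ≤ h → Real.log h ≤ c0 * s →
      ∀ b : Fin (r + 1) → ℚ, b ≠ 0 →
        ∃ l : ℕ, 1 ≤ l ∧ Real.log l ≤ s ∧ Nat.Coprime h l ∧ ∑ i, b i * c i l ≠ 0 := by
  classical
  rcases Nat.eq_zero_or_pos r with rfl | hr
  · refine ⟨1, one_pos, fun s hs h _ _ b hb => ⟨1, le_rfl, ?_, Nat.coprime_one_right h, ?_⟩⟩
    · rw [Nat.cast_one, Real.log_one]
      linarith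
    · obtain ⟨i0, hi0⟩ : ∃ i0, b i0 ≠ 0 := by
        by_contra hcon
        push Not at hcon
        exact hb (funext hcon)
      have h0 : i0 = 0 := Fin.ext (by omega)
      subst h0
      rw [Fin.sum_univ_one, h1, mul_one]
      exact hi0
  have hr1 : (1 : ℝ) ≤ r := by exact_mod_cast hr
  have hl0 : (0 : ℝ) ≤ l0 := Nat.cast_nonneg _
  have hA0 : (0 : ℝ) ≤ A := Nat.cast_nonneg _
  obtain ⟨a, ha⟩ : ∃ a : ℝ, a = (A : ℝ) + 1 := ⟨_, rfl⟩
  have ha1 : 1 ≤ a := by linarith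
  -- the product of the two parameters
  obtain ⟨u, hu⟩ : ∃ u : ℝ, u = r * a := ⟨_, rfl⟩
  have hu1 : 1 ≤ u := by rw [hu]; nlinarith
  obtain ⟨P, hP⟩ : ∃ P : ℝ, P = ((r : ℝ) + 1) ^ 4 * a ^ 2 * c0 := ⟨_, rfl⟩
  refine ⟨1000 * P * ((l0 : ℝ) + 1), by rw [hP]; positivity, ?_⟩
  intro s hs h hh hlog b hb
  have hP1 : 1 ≤ P := by
    rw [hP]
    have h1 : (1 : ℝ) ≤ ((r : ℝ) + 1) ^ 4 := one_le_pow₀ (by linarith)
    have h2 : (1 : ℝ) ≤ a ^ 2 := one_le_pow₀ ha1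
    have h3 : (1 : ℝ) ≤ ((r : ℝ) + 1) ^ 4 * a ^ 2 := by nlinarith
    nlinarith
  have hrr2 : (r : ℝ) ^ 2 ≤ ((r : ℝ) + 1) ^ 4 := by
    have h2 : (r : ℝ) ^ 2 ≤ ((r : ℝ) + 1) ^ 2 :=
      pow_le_pow_left₀ (by linarith) (by linarith) 2
    have h3 : ((r : ℝ) + 1) ^ 2 ≤ ((r : ℝ) + 1) ^ 4 :=
      pow_le_pow_right₀ (by linarith) (by norm_num)
    linarith
  have hu2P : u ^ 2 * c0 ≤ P := by
    rw [hu, hP]
    calc (r * a) ^ 2 * c0 = (r : ℝ) ^ 2 * (a ^ 2 * c0) := by ring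
      _ ≤ ((r : ℝ) + 1) ^ 4 * (a ^ 2 * c0) :=
        mul_le_mul_of_nonneg_right hrr2 (by positivity)
      _ = ((r : ℝ) + 1) ^ 4 * a ^ 2 * c0 := by ring
  have hr12 : (1 : ℝ) ≤ c0 := hc0
  have huP : u ≤ P := by
    have h2 : u ≤ u ^ 2 := by nlinarith
    have h3 : u ^ 2 * 1 ≤ u ^ 2 * c0 := mul_le_mul_of_nonneg_left hr12 (by positivity)
    linarith
  have hs1 : 1000 * P ≤ s := by
    have : 1000 * P * 1 ≤ 1000 * P * ((l0 : ℝ) + 1) :=
      mul_le_mul_of_nonneg_left (by linarith) (by linarith)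
    linarith
  have hs0 : 0 < s := by linarith
  have hs2 : 1000 * u * ((l0 : ℝ) + 1) ≤ s := by
    have : 1000 * u * ((l0 : ℝ) + 1) ≤ 1000 * P * ((l0 : ℝ) + 1) :=
      mul_le_mul_of_nonneg_right (by linarith) (by linarith)
    linarith
  -- the parameter
  obtain ⟨m, hm⟩ : ∃ m : ℕ, m = ⌊s / (4 * u)⌋₊ := ⟨_, rfl⟩
  have h4r : (0 : ℝ) < 4 * u := by linarith
  have hm1 : (m : ℝ) ≤ s / (4 * u) := by
    rw [hm]
    exact Nat.floor_le (div_nonneg hs0.le h4r.le)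
  have hm2 : s / (4 * u) < m + 1 := by
    rw [hm]
    exact Nat.lt_floor_add_one _
  have hm1' : (m : ℝ) * (4 * u) ≤ s := (le_div_iff₀ h4r).1 hm1
  have hm2' : s < (m + 1) * (4 * u) := (div_lt_iff₀ h4r).1 hm2
  have hml0 : l0 ≤ m := by
    by_contra hlt
    have h2 : (m : ℝ) + 1 ≤ l0 := by exact_mod_cast Nat.lt_of_not_le hlt
    nlinarith
  have hlog2 : (1 : ℝ) / 2 < Real.log 2 := by
    have := Real.log_two_gt_d9
    linarith
  have hlog2' : Real.log 2 < 1 := by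
    have := Real.log_two_lt_d9
    linarith
  have hm8 : s ≤ (m : ℝ) * (8 * u) := by nlinarith
  have hhm : h < (2 ^ m) ^ (m + 1) := by
    by_contra hge
    push Not at hge
    have h2 : Real.log (((2 ^ m) ^ (m + 1) : ℕ) : ℝ) ≤ Real.log h :=
      Real.log_le_log (by positivity) (by exact_mod_cast hge)
    have h3 : Real.log (((2 ^ m) ^ (m + 1) : ℕ) : ℝ) = ((m : ℝ) + 1) * (m * Real.log 2) := by
      push_cast
      rw [Real.log_pow, Real.log_pow]
      push_cast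
      ring
    rw [h3] at h2
    have hm0 : (0 : ℝ) ≤ m := Nat.cast_nonneg _
    have h4 : (m : ℝ) * m / 2 ≤ c0 * s := by
      have h5 : (m : ℝ) * m / 2 ≤ ((m : ℝ) + 1) * (m * Real.log 2) := by
        have h6 : (m : ℝ) * (1 / 2) ≤ m * Real.log 2 :=
          mul_le_mul_of_nonneg_left hlog2.le hm0
        nlinarith
      linarith
    have h6 : s * s ≤ ((m : ℝ) * (8 * u)) * ((m : ℝ) * (8 * u)) :=
      mul_le_mul hm8 hm8 hs0.le (by positivity)
    have h7 : s * s ≤ 128 * u ^ 2 * (c0 * s) := by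
      have h8 : ((m : ℝ) * (8 * u)) * ((m : ℝ) * (8 * u)) = 128 * u ^ 2 * (m * m / 2) := by
        ring
      rw [h8] at h6
      exact h6.trans (mul_le_mul_of_nonneg_left h4 (by positivity))
    have h9 : s ≤ 128 * u ^ 2 * c0 := by
      have h10 : s * s ≤ (128 * u ^ 2 * c0) * s := by linarith
      exact le_of_mul_le_mul_right h10 hs0
    linarith
  obtain ⟨q, hq, hqq⟩ := Pool.Agent.Y109.ST.primes r m h hh hhm
  have hql0 : ∀ t, l0 < q t := fun t =>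
    lt_of_le_of_lt hml0 (lt_of_le_of_lt (Nat.lt_two_pow_self).le (hqq t).2.1)
  obtain ⟨i0, hi0⟩ : ∃ i0, b i0 ≠ 0 := by
    by_contra hcon
    push Not at hcon
    exact hb (funext hcon)
  choose k hk1 hkA hk using fun t : Fin r => hne i0 (i0.succAbove t) (Fin.succAbove_ne i0 t).symm
  obtain ⟨S, hS⟩ := Pool.Agent.Y810.ST.comb2 r c h1 hmul q hq (fun t => (hqq t).1) k b i0 hi0
    (fun t => hk t _ (hqq t).1 (hql0 t))
  have hpos : ∀ t, (0 : ℝ) < q t := fun t => by exact_mod_cast (hqq t).1.pos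
  refine ⟨∏ t ∈ S, q t ^ k t, Finset.prod_pos fun t _ => pow_pos (hqq t).1.pos _, ?_, ?_, hS⟩
  · rw [Nat.cast_prod, Real.log_prod fun t _ => by
      rw [Nat.cast_pow]
      exact (pow_pos (hpos t) _).ne']
    have h2 : ∀ t ∈ S, Real.log ((q t ^ k t : ℕ) : ℝ) ≤ s / r := by
      intro t _
      have h3 : (q t : ℝ) ≤ 2 ^ (2 * m + r) := by exact_mod_cast (hqq t).2.2.1
      have h4 : Real.log (q t) ≤ ((2 * m + r : ℕ) : ℝ) * Real.log 2 := by
        rw [← Real.log_pow]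
        exact Real.log_le_log (hpos t) h3
      have h5 : ((2 * m + r : ℕ) : ℝ) * Real.log 2 ≤ ((2 * m + r : ℕ) : ℝ) * 1 :=
        mul_le_mul_of_nonneg_left hlog2'.le (Nat.cast_nonneg _)
      have hka : (k t : ℝ) ≤ a := by
        have : (k t : ℝ) ≤ A := by exact_mod_cast hkA t
        linarith
      have h7 : (0 : ℝ) ≤ ((2 * m + r : ℕ) : ℝ) := Nat.cast_nonneg _
      rw [Nat.cast_pow, Real.log_pow]
      have h8 : (k t : ℝ) * Real.log (q t) ≤ a * ((2 * m + r : ℕ) : ℝ) := by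
        have h9 : Real.log (q t) ≤ ((2 * m + r : ℕ) : ℝ) := by linarith
        calc (k t : ℝ) * Real.log (q t) ≤ k t * ((2 * m + r : ℕ) : ℝ) :=
              mul_le_mul_of_nonneg_left h9 (Nat.cast_nonneg _)
          _ ≤ a * ((2 * m + r : ℕ) : ℝ) := mul_le_mul_of_nonneg_right hka h7
      refine h8.trans ?_
      rw [le_div_iff₀ (by linarith)]
      push_cast
      have h10 : a * (2 * (m : ℝ) + r) * r = (m : ℝ) * (4 * u) / 2 + r * u := by
        rw [hu]; ring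
      rw [h10]
      have h11 : (r : ℝ) * u ≤ P := by
        have h12 : (r : ℝ) ≤ u := by rw [hu]; nlinarith
        have h13 : (r : ℝ) * u ≤ u * u := mul_le_mul_of_nonneg_right h12 (by linarith)
        have h14 : u ^ 2 * 1 ≤ u ^ 2 * c0 :=
          mul_le_mul_of_nonneg_left hr12 (by positivity)
        nlinarith
      linarith
    refine (Finset.sum_le_sum h2).trans ?_
    rw [Finset.sum_const, nsmul_eq_mul]
    have h3 : (S.card : ℝ) ≤ r := by
      have := Finset.card_le_univ S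
      rw [Fintype.card_fin] at this
      exact_mod_cast this
    have h4 : (0 : ℝ) ≤ s / r := div_nonneg hs0.le (by linarith)
    calc (S.card : ℝ) * (s / r) ≤ r * (s / r) := mul_le_mul_of_nonneg_right h3 h4
      _ = s := by field_simp
  · apply Nat.Coprime.prod_right
    intro t _
    exact Nat.Coprime.pow_right _ (((hqq t).1.coprime_iff_not_dvd).2 (hqq t).2.2.2).symm

end Pool.Agent.Y760.ST
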