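import Pool.Agent.Y760.ST.Nd

/-!
# Project ST: truncated series as polynomials, coefficients, transfer (helper760)
-/

set_option autoImplicit false

namespace Pool.Agent.Y760.ST

open Filter Topology Pool.Agent.TH932.Abs Pool.Agent.TH932.Germs Pool.Agent.TH932.Chi
open Pool.Agent.TH796.AL Pool.Agent.Y760.ZG Pool.Agent.Y760.RT Pool.Agent.TH932.Scale

/-! ## constants -/

/-- constant sequences -/
noncomputable def cg : ℚ →+* GG where
  toFun x := gm fun _ => x
  map_one' := gm_one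
  map_mul' _ _ := (gm_mul _ _).symm
  map_zero' := gm_zero
  map_add' _ _ := (gm_add _ _).symm

lemma cg_apply (x : ℚ) : cg x = gm fun _ => x := rfl

lemma cast_KK {L : ℕ → ℝ} (hL : Tendsto L atTop atTop) (x : ℚ) :
    (((x : ℚ) : KK L hL) : GG) = gm fun _ => x := by
  have h1 : (((x : ℚ) : KK L hL) : GG) = ((x : ℚ) : GG) :=
    map_ratCast (KK L hL).subtype x
  rw [h1, ← cg_apply, eq_ratCast cg x]

/-! ## exponents -/

/-- the exponents of `k` -/
noncomputable def ekf (m k : ℕ) : Fin m →₀ ℕ := Finsupp.equivFunOnFinite.symm (ek m k)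

lemma hv_ekf {m k : ℕ} (hk : k ≠ 0) (hkm : k < pr m) : hv (ekf m k) = k := by
  unfold hv ekf
  simp only [Finsupp.equivFunOnFinite_symm_apply_apply]
  exact prod_ek hk hkm

/-- the constant exponent `M` -/
noncomputable def Ef (m M : ℕ) : Fin m →₀ ℕ := Finsupp.equivFunOnFinite.symm fun _ => M

/-- the exponent of `k`, subtracted from the constant exponent `M` -/
noncomputable def dk (m M k : ℕ) : Fin m →₀ ℕ :=
  Finsupp.equivFunOnFinite.symm fun i => M - ek m k i

lemma dk_add {m M k : ℕ} (hk : k ≠ 0) (hkM : k ≤ M) : dk m M k + ekf m k = Ef m M := by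
  ext i
  unfold dk ekf Ef
  rw [Finsupp.add_apply]
  simp only [Finsupp.equivFunOnFinite_symm_apply_apply]
  have h1 := ek_le (m := m) hk i
  omega

lemma log_hv_dk {m M k : ℕ} (hk : k ≠ 0) (hkM : k ≤ M) (hkm : k < pr m) :
    Real.log (hv (dk m M k)) = Real.log (hv (Ef m M)) - Real.log k := by
  rw [← dk_add hk hkM, hv_add, hv_ekf hk hkm, Nat.cast_mul, Real.log_mul]
  · ring
  · exact_mod_cast (hv_pos _).ne'
  · exact_mod_cast hk

/-- the only term at the exponent of a small coprime integer -/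
lemma uniq_term {m M : ℕ} {γ δ : Fin m →₀ ℕ} {k l : ℕ} (hk : k ≠ 0) (hkM : k ≤ M)
    (hkm : k < pr m) (hl : l ≠ 0) (hlM : l ≤ M) (hlm : l < pr m) (hco : Nat.Coprime (hv γ) l)
    (hδ : hv δ ≤ hv γ) (h : δ + dk m M k = γ + dk m M l) : k = l := by
  have h1 : δ + ekf m l = γ + ekf m k := by
    have h2 : (δ + ekf m l) + (dk m M k + dk m M l) = (γ + ekf m k) + (dk m M k + dk m M l) := by
      calc (δ + ekf m l) + (dk m M k + dk m M l) = (δ + dk m M k) + (dk m M l + ekf m l) := by abel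
        _ = (γ + dk m M l) + (dk m M k + ekf m k) := by rw [h, dk_add hl hlM, dk_add hk hkM]
        _ = _ := by abel
    exact add_right_cancel h2
  have h2 : hv δ * l = hv γ * k := by
    have h3 := congrArg hv h1
    rwa [hv_add, hv_add, hv_ekf hl hlm, hv_ekf hk hkm] at h3
  have h3 : l ∣ k := by
    have h4 : l ∣ hv γ * k := ⟨hv δ, by rw [← h2, mul_comm]⟩
    exact hco.symm.dvd_of_dvd_mul_left h4
  have h4 : l ≤ k := Nat.le_of_dvd (by omega) h3
  have h5 : hv γ * k ≤ hv γ * l := by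
    rw [← h2]
    exact Nat.mul_le_mul_right _ hδ
  have h6 := Nat.le_of_mul_le_mul_left h5 (hv_pos γ)
  omega

/-! ## truncated series -/

section

variable {m : ℕ} {L : ℕ → ℝ} (hL : Tendsto L atTop atTop)

/-- the truncated series, multiplied by a monomial -/
noncomputable def Tp (M : ℕ) (κ : ℕ → KK L hL) (c : ℕ → ℚ) : MvPolynomial (Fin m) (KK L hL) :=
  ∑ k ∈ Finset.Icc 1 M, MvPolynomial.monomial (dk m M k) (κ k * ((c k : ℚ) : KK L hL))

/-- the coefficient of a combination of the truncated series -/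
lemma coeff_Tp {r M : ℕ} (κ : ℕ → KK L hL) (c : Fin r → ℕ → ℚ)
    (b : Fin r → MvPolynomial (Fin m) (KK L hL)) (γ : Fin m →₀ ℕ) {l : ℕ} (hl : l ≠ 0)
    (hlM : l ≤ M) (hM : ∀ k ≤ M, k < pr m) (hco : Nat.Coprime (hv γ) l)
    (hb : ∀ i g, (b i).coeff g ≠ 0 → hv g ≤ hv γ) :
    (∑ i, b i * Tp hL M κ (c i)).coeff (γ + dk m M l) =
      κ l * ∑ i, (b i).coeff γ * ((c i l : ℚ) : KK L hL) := by
  classical
  rw [MvPolynomial.coeff_sum, Finset.mul_sum]
  refine Finset.sum_congr rfl fun i _ => ?_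
  unfold Tp
  rw [Finset.mul_sum, MvPolynomial.coeff_sum, Finset.sum_eq_single l]
  · rw [MvPolynomial.coeff_mul_monomial]
    ring
  · intro k hk hkl
    rw [Finset.mem_Icc] at hk
    rw [MvPolynomial.coeff_mul_monomial']
    split_ifs with h1
    · by_cases h2 : (b i).coeff (γ + dk m M l - dk m M k) = 0
      · rw [h2, zero_mul]
      · exact absurd (uniq_term (by omega) hk.2 (hM k hk.2) hl hlM (hM l hlM) hco (hb i _ h2)
          (tsub_add_cancel_of_le h1)) hkl
    · rfl
  · intro h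
    exact absurd (Finset.mem_Icc.2 ⟨by omega, hlM⟩) h

end

/-! ## transfer -/

/-- the nonvanishing condition for germs -/
lemma transfer {r : ℕ} {c : Fin (r + 1) → ℕ → ℚ} {T s : ℝ} (hNV : NV r c T) (hs : T ≤ s)
    {h : ℕ} (hh : 1 ≤ h) (hhs : Real.log h ≤ ((r : ℝ) + 1) ^ 2 * s) (b : Fin (r + 1) → GG)
    (hb : ∃ i, b i ≠ 0) :
    ∃ l : ℕ, 1 ≤ l ∧ Real.log l ≤ s ∧ Nat.Coprime h l ∧ ∑ i, b i * gm (fun _ => c i l) ≠ 0 := by
  classical
  by_contra hcon
  push Not at hcon
  have h0 : ∀ i, ∃ β, gm β = b i := fun i => gm_surj (b i)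
  choose β hβ using h0
  obtain ⟨i0, hi0⟩ := hb
  rw [← hβ, gm_ne_zero] at hi0
  set S : Finset ℕ := (Finset.range (⌊Real.exp s⌋₊ + 1)).filter
    fun l => 1 ≤ l ∧ Real.log l ≤ s ∧ Nat.Coprime h l with hS
  have h1 : ∀ l ∈ S, ∀ᶠ t in (UU : Filter ℕ), ∑ i, β i t * c i l = 0 := by
    intro l hl
    rw [hS, Finset.mem_filter] at hl
    have h2 := hcon l hl.2.1 hl.2.2.1 hl.2.2.2
    have h3 : ∑ i, b i * gm (fun _ => c i l) = gm fun t => ∑ i, β i t * c i l := by
      have h4 : ∀ s : Finset (Fin (r + 1)), ∑ i ∈ s, b i * gm (fun _ => c i l) =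
          gm fun t => ∑ i ∈ s, β i t * c i l := by
        intro s
        induction s using Finset.induction_on with
        | empty =>
          simp only [Finset.sum_empty]
          exact gm_zero.symm
        | insert i s hi ih =>
          rw [Finset.sum_insert hi, ih, ← hβ, gm_mul, gm_add]
          congr 1
          funext t
          rw [Finset.sum_insert hi]
      exact h4 _
    rw [h3, ← gm_zero, gm_eq] at h2
    exact h2
  have h2 : ∀ᶠ t in (UU : Filter ℕ), ∀ l ∈ S, ∑ i, β i t * c i l = 0 :=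
    (Filter.eventually_all_finset S).2 h1
  obtain ⟨t, ht1, ht2⟩ := (hi0.and h2).exists
  obtain ⟨l, hl1, hls, hco, hne⟩ := hNV s hs h hh hhs (fun i => β i t) (by
    intro h3
    exact ht1 (congrFun h3 i0))
  refine hne (ht2 l ?_)
  rw [hS, Finset.mem_filter, Finset.mem_range]
  refine ⟨?_, hl1, hls, hco⟩
  have h3 : (0 : ℝ) < l := by exact_mod_cast hl1
  have h4 : (l : ℝ) ≤ Real.exp s := by
    rw [← Real.log_le_iff_le_exp h3]
    exact hls
  have h5 := Nat.le_floor h4
  omega

/-! ## bounds for the exponents -/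

/-- the exponents of `A` are at most `a` -/
def SB {m : ℕ} {K : Type} [Field K] (A : MvPolynomial (Fin m) K) (a : ℝ) : Prop :=
  ∀ g, A.coeff g ≠ 0 → Real.log (hv g) ≤ a

lemma SB.mul {m : ℕ} {K : Type} [Field K] {A B : MvPolynomial (Fin m) K} {a b : ℝ}
    (hA : SB A a) (hB : SB B b) : SB (A * B) (a + b) := by
  classical
  intro g hg
  rw [MvPolynomial.coeff_mul] at hg
  obtain ⟨x, hx, hne⟩ := Finset.exists_ne_zero_of_sum_ne_zero hg
  rw [Finset.HasAntidiagonal.mem_antidiagonal] at hx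
  have h1 := hA x.1 (left_ne_zero_of_mul hne)
  have h2 := hB x.2 (right_ne_zero_of_mul hne)
  rw [← hx, hv_add, Nat.cast_mul, Real.log_mul]
  · linarith only [h1, h2]
  · exact_mod_cast (hv_pos _).ne'
  · exact_mod_cast (hv_pos _).ne'

lemma SB.one {m : ℕ} {K : Type} [Field K] : SB (1 : MvPolynomial (Fin m) K) 0 := by
  classical
  intro g hg
  rw [MvPolynomial.coeff_one] at hg
  split_ifs at hg with h
  · rw [← h, hv_zero, Nat.cast_one, Real.log_one]
  · exact absurd rfl hg

lemma SB.zero {m : ℕ} {K : Type} [Field K] (a : ℝ) : SB (0 : MvPolynomial (Fin m) K) a := by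
  intro g hg
  rw [MvPolynomial.coeff_zero] at hg
  exact absurd rfl hg

lemma SB.neg {m : ℕ} {K : Type} [Field K] {A : MvPolynomial (Fin m) K} {a : ℝ}
    (hA : SB A a) : SB (-A) a := by
  intro g hg
  rw [MvPolynomial.coeff_neg] at hg
  exact hA g (fun h => hg (by rw [h, neg_zero]))

lemma SB.mono {m : ℕ} {K : Type} [Field K] {A : MvPolynomial (Fin m) K} {a b : ℝ}
    (hA : SB A a) (h : a ≤ b) : SB A b := fun g hg => (hA g hg).trans h

lemma SB.prod {m : ℕ} {K : Type} [Field K] {ι : Type} (S : Finset ι)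
    (A : ι → MvPolynomial (Fin m) K) {a : ℝ} (hA : ∀ i ∈ S, SB (A i) a) :
    SB (∏ i ∈ S, A i) (S.card * a) := by
  classical
  induction S using Finset.induction_on with
  | empty =>
    rw [Finset.prod_empty, Finset.card_empty, Nat.cast_zero, zero_mul]
    exact SB.one
  | insert i S hi ih =>
    rw [Finset.prod_insert hi, Finset.card_insert_of_notMem hi]
    refine SB.mono (SB.mul (hA i (Finset.mem_insert_self _ _))
      (ih fun j hj => hA j (Finset.mem_insert_of_mem hj))) (le_of_eq ?_)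
    push_cast
    ring

/-- the size of a value of a polynomial -/
lemma phi_mem {m : ℕ} {L : ℕ → ℝ} (hL : Tendsto L atTop atTop)
    (P : MvPolynomial (Fin m) (KK L hL)) {γ : Fin m →₀ ℕ}
    (h : ∀ g, P.coeff g ≠ 0 → hv g ≤ hv γ) :
    phi (bs m) hL P ∈ Sv (bs m) L none (-Real.log (hv γ)) := by
  rw [phi_eq]
  refine Finset.sum_induction _ (fun x => x ∈ Sv (bs m) L none (-Real.log (hv γ)))
    (fun a b => (filt_v hL none).add_mem) ((filt_v hL none).zero_mem _) ?_
  intro g hg
  have h1 := (filt_v hL none).mul_mem ((filt_v hL none).alg_mem (P.coeff g))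
    (ch_mem (B := bs m) hL none (cf g))
  rw [zero_add] at h1
  refine (filt_v hL none).anti ?_ h1
  rw [lv_cf]
  have h2 : Real.log (hv g) ≤ Real.log (hv γ) :=
    Real.log_le_log (by exact_mod_cast hv_pos g)
      (by exact_mod_cast h g (MvPolynomial.mem_support_iff.1 hg))
  linarith only [h2]

end Pool.Agent.Y760.ST
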