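import Pool.Agent.Y760.ST.Co

/-!
# Project ST: the contradiction for germs (helper760)
-/

set_option autoImplicit false

namespace Pool.Agent.Y760.ST

open Filter Topology Pool.Agent.TH932.Abs Pool.Agent.TH932.Germs Pool.Agent.TH932.Chi
open Pool.Agent.TH796.AL Pool.Agent.Y760.ZG Pool.Agent.Y760.RT Pool.Agent.TH932.Scale

/-- the contradiction -/
theorem fin_step (hrs : RsStmt) (hal : AlStmt) {r m : ℕ} {L : ℕ → ℝ}
    (hL : Tendsto L atTop atTop) (Q : Fin (r + 1) → GG) (hQ : ∃ i, Q i ≠ 0) {s : ℝ} (hs0 : 0 ≤ s)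
    (hfin : ∀ v i, Q i ∈ Sv (bs m) L (some v) 0) (hint : ∀ i, Sint (bs m) L (Q i))
    (hinf : ∀ i, Q i ∈ Sv (bs m) L none (-s)) (c : Fin (r + 1) → ℕ → ℚ) (hc : c 0 1 ≠ 0) {T : ℝ}
    (hNV : NV r c T) (hTs : T ≤ s) {lB : ℝ} (hlB : 0 < lB) {M : ℕ} (hM : ∀ k ≤ M, k < pr m)
    (hM1 : 1 ≤ M) (hMs : ∀ l : ℕ, 1 ≤ l → Real.log l ≤ s → l ≤ M) (κ : ℕ → KK L hL)
    (hκ : ∀ k, 1 ≤ k → k ≤ M → κ k ≠ 0)
    (hΛ : ∑ i, phi (bs m) hL (Tp hL M κ (c i)) * Q i ∈
      Sv (bs m) L none (r * s + lB - Real.log (hv (Ef m M)))) : False := by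
  classical
  set R : Type := MvPolynomial (Fin m) (KK L hL) with hR
  set φ : R →+* GG := phi (bs m) hL with hφ
  have hφi : Function.Injective φ := by
    rw [injective_iff_map_eq_zero]
    intro A hA
    exact phi_inj (bs m) hL hA
  obtain ⟨I, hIne, hIli, hIrel⟩ := hal R GG φ hφi (r + 1) Q hQ
  choose A hA0 hAr hAall hAprim using hIrel
  have hSB : ∀ j hj x, SB (A j hj x) (I.card * s) := by
    intro j hj x g hg
    have h1 := hrs m L hL (Option I) (fun x => Q (x.elim j (fun i => (i : Fin (r + 1)))))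
      (A j hj) x g s (hAr j hj) (hAall j hj) (hAprim j hj) (fun v x => hfin v _)
      (fun x => hint _) (fun x => hinf _) hg
    rw [Fintype.card_option, Fintype.card_coe] at h1
    push_cast at h1
    linarith only [h1]
  set P : R := ∏ j : {j // j ∉ I}, A j.1 j.2 none with hP
  set P' : {j // j ∉ I} → R := fun l => ∏ j ∈ Finset.univ.erase l, A j.1 j.2 none with hP'
  have hPP : ∀ l : {j // j ∉ I}, A l.1 l.2 none * P' l = P := fun l =>
    Finset.mul_prod_erase Finset.univ (fun j : {j // j ∉ I} => A j.1 j.2 none) (Finset.mem_univ l)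
  have hP0 : P ≠ 0 := Finset.prod_ne_zero_iff.2 fun j _ => hA0 j.1 j.2
  set b : I → Fin (r + 1) → R := fun i l =>
    if h : l ∈ I then (if i = ⟨l, h⟩ then P else 0) else -(P' ⟨l, h⟩ * A l h (some i)) with hb
  have hPb : ∀ l, φ P * Q l = ∑ i : I, φ (b i l) * Q i := by
    intro l
    by_cases h : l ∈ I
    · rw [Finset.sum_eq_single (⟨l, h⟩ : I)]
      · rw [hb]
        simp only
        rw [dif_pos h, if_pos trivial]
      · intro i _ hi
        rw [hb]
        simp only
        rw [dif_pos h, if_neg hi, map_zero, zero_mul]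
      · intro h1
        exact absurd (Finset.mem_univ _) h1
    · have h1 := hAr l h
      rw [Fintype.sum_option] at h1
      simp only [Option.elim_none, Option.elim_some] at h1
      have h2 : ∀ i : I, φ (b i l) * Q i = -φ (P' ⟨l, h⟩) * (φ (A l h (some i)) * Q i) := by
        intro i
        rw [hb]
        simp only
        rw [dif_neg h, map_neg, map_mul]
        ring
      rw [Finset.sum_congr rfl fun i _ => h2 i, ← Finset.mul_sum, ← hPP ⟨l, h⟩, map_mul]
      linear_combination φ (P' ⟨l, h⟩) * h1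
  -- sizes of the exponents
  have hcard : (Fintype.card {j // j ∉ I} : ℝ) + I.card = r + 1 := by
    have h1 : Fintype.card {j // j ∉ I} + I.card = r + 1 := by
      have h2 := Fintype.card_subtype_compl (fun j => j ∈ I)
      rw [Fintype.card_coe, Fintype.card_fin] at h2
      have h3 : I.card ≤ r + 1 := by
        have := Finset.card_le_univ I
        rwa [Fintype.card_fin] at this
      omega
    exact_mod_cast h1
  set a : ℝ := Fintype.card {j // j ∉ I} * (I.card * s) with ha
  have haT : a ≤ ((r : ℝ) + 1) ^ 2 * s := by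
    have h1 : (0 : ℝ) ≤ Fintype.card {j // j ∉ I} := Nat.cast_nonneg _
    have h2 : (0 : ℝ) ≤ I.card := Nat.cast_nonneg _
    have h3 : (Fintype.card {j // j ∉ I} : ℝ) * I.card ≤ ((r : ℝ) + 1) ^ 2 := by
      rw [← hcard]
      nlinarith only [h1, h2]
    calc a = ((Fintype.card {j // j ∉ I} : ℝ) * I.card) * s := by
          rw [ha]
          ring
      _ ≤ _ := mul_le_mul_of_nonneg_right h3 hs0
  have hPSB : SB P a := by
    have h1 := SB.prod (Finset.univ : Finset {j // j ∉ I}) (fun j => A j.1 j.2 none)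
      (a := I.card * s) (fun j _ => hSB _ _ _)
    rw [Finset.card_univ] at h1
    exact h1
  have hbSB : ∀ i l, SB (b i l) a := by
    intro i l
    rw [hb]
    simp only
    split_ifs with h1 h2
    · exact hPSB
    · exact SB.zero _
    · refine SB.neg ?_
      have h2 := SB.prod (Finset.univ.erase (⟨l, h1⟩ : {j // j ∉ I})) (fun j => A j.1 j.2 none)
        (a := I.card * s) (fun j _ => hSB _ _ _)
      refine SB.mono (SB.mul h2 (hSB l h1 (some i))) (le_of_eq ?_)
      rw [Finset.card_erase_of_mem (Finset.mem_univ _), Finset.card_univ]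
      have h3 : 1 ≤ Fintype.card {j // j ∉ I} := Fintype.card_pos_iff.2 ⟨⟨l, h1⟩⟩
      rw [Nat.cast_sub h3, ha]
      push_cast
      ring
  -- the application of the nondegenerate case
  have key : ∀ (i1 : I) (γ : Fin m →₀ ℕ) (l : ℕ), (∀ j g, (b i1 j).coeff g ≠ 0 → hv g ≤ hv γ) →
      (∀ g, P.coeff g ≠ 0 → hv g ≤ hv γ) → 1 ≤ l → l ≤ M → Nat.Coprime (hv γ) l →
      ∑ j, (b i1 j).coeff γ * ((c j l : ℚ) : KK L hL) ≠ 0 →
      r * s + lB ≤ ((I.card : ℝ) - 1) * s + Real.log l := by
    intro i1 γ l h1 h2 hl hlM hco hne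
    have hl0 : l ≠ 0 := by omega
    have h3 := nd m L hL I (fun i => Q i) i1 (fun i => ∑ j, b i j * Tp hL M κ (c j))
      (γ + dk m M l) s (-Real.log (hv γ) + (r * s + lB - Real.log (hv (Ef m M)))) hIli
      (fun v i => hfin v i) (fun i => hint i) (fun i => hinf i) (by
        rw [coeff_Tp hL κ c (b i1) γ hl0 hlM hM hco h1]
        exact mul_ne_zero (hκ l hl hlM) hne) (by
        have h4 : ∑ i : I, phi (bs m) hL (∑ j, b i j * Tp hL M κ (c j)) * Q i =
            φ P * ∑ j, phi (bs m) hL (Tp hL M κ (c j)) * Q j := by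
          have h5 : ∀ i : I, phi (bs m) hL (∑ j, b i j * Tp hL M κ (c j)) * Q i =
              ∑ j, phi (bs m) hL (Tp hL M κ (c j)) * (φ (b i j) * Q i) := by
            intro i
            rw [map_sum, Finset.sum_mul]
            refine Finset.sum_congr rfl fun j _ => ?_
            rw [map_mul, hφ]
            ring
          rw [Finset.sum_congr rfl fun i _ => h5 i, Finset.sum_comm, Finset.mul_sum]
          refine Finset.sum_congr rfl fun j _ => ?_
          rw [← Finset.mul_sum, ← hPb]
          ring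
        rw [h4]
        exact (filt_v hL none).mul_mem (phi_mem hL P h2) hΛ)
    have h4 : Real.log (hv (γ + dk m M l)) = Real.log (hv γ) +
        (Real.log (hv (Ef m M)) - Real.log l) := by
      rw [hv_add, Nat.cast_mul, Real.log_mul, log_hv_dk hl0 hlM (hM l hlM)]
      · exact_mod_cast (hv_pos _).ne'
      · exact_mod_cast (hv_pos _).ne'
    rw [h4, Fintype.card_coe] at h3
    linarith only [h3]
  by_cases hfull : I = Finset.univ
  · -- no relations
    have h0 : (0 : Fin (r + 1)) ∈ I := by
      rw [hfull]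
      exact Finset.mem_univ _
    have hall : ∀ j, j ∈ I := fun j => by
      rw [hfull]
      exact Finset.mem_univ _
    haveI : IsEmpty {j // j ∉ I} := ⟨fun j => j.2 (hall j.1)⟩
    have hP1 : P = 1 := by
      rw [hP]
      exact Finset.prod_of_isEmpty _
    have hbl : ∀ j, b ⟨0, h0⟩ j = if j = 0 then 1 else 0 := by
      intro j
      rw [hb]
      simp only
      rw [dif_pos (hall j), hP1]
      by_cases hj : j = 0
      · subst hj
        rw [if_pos rfl, if_pos rfl]
      · rw [if_neg hj, if_neg]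
        intro h
        exact hj (congrArg Subtype.val h).symm
    have hone : ∀ g, (1 : R).coeff g ≠ 0 → hv g ≤ hv (0 : Fin m →₀ ℕ) := by
      intro g hg
      rw [MvPolynomial.coeff_one] at hg
      split_ifs at hg with h
      · rw [← h]
      · exact absurd rfl hg
    have h1 := key ⟨0, h0⟩ 0 1 (by
      intro j g hg
      rw [hbl] at hg
      split_ifs at hg with h
      · exact hone g hg
      · rw [MvPolynomial.coeff_zero] at hg
        exact absurd rfl hg) (by
      rw [hP1]
      exact hone) le_rfl hM1 (Nat.coprime_one_right _) (by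
      rw [Finset.sum_eq_single (0 : Fin (r + 1))]
      · rw [hbl, if_pos rfl, MvPolynomial.coeff_one, if_pos rfl, one_mul]
        intro h
        apply hc
        have h2 : (((c 0 1 : ℚ) : KK L hL)) = ((0 : ℚ) : KK L hL) := by
          rw [h, Rat.cast_zero]
        exact Rat.cast_injective h2
      · intro j _ hj
        rw [hbl, if_neg hj, MvPolynomial.coeff_zero, zero_mul]
      · intro h
        exact absurd (Finset.mem_univ _) h)
    have h2 : (I.card : ℝ) = r + 1 := by
      rw [hfull, Finset.card_univ, Fintype.card_fin]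
      push_cast
      rfl
    rw [h2, Nat.cast_one, Real.log_one] at h1
    linarith only [h1, hlB]
  · -- relations
    have hlt : I.card < r + 1 := by
      obtain ⟨x, hx⟩ : ∃ x, x ∉ I := by
        by_contra hcon
        push Not at hcon
        exact hfull (Finset.eq_univ_of_forall hcon)
      have h2 := Finset.card_lt_univ_of_notMem hx
      rwa [Fintype.card_fin] at h2
    obtain ⟨i0, hi0⟩ := hIne
    set i1 : I := ⟨i0, hi0⟩ with hi1
    have hbi : b i1 i0 = P := by
      rw [hb]
      simp only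
      rw [dif_pos hi0, if_pos rfl]
    -- the largest exponent
    obtain ⟨γ, hγ, hγm⟩ := Finset.exists_max_image
      (Finset.univ.biUnion fun j => (b i1 j).support) hv (by
        obtain ⟨g, hg⟩ := MvPolynomial.ne_zero_iff.1 hP0
        refine ⟨g, Finset.mem_biUnion.2 ⟨i0, Finset.mem_univ _, ?_⟩⟩
        rw [hbi]
        exact MvPolynomial.mem_support_iff.2 hg)
    rw [Finset.mem_biUnion] at hγ
    obtain ⟨j1, _, hj1⟩ := hγ
    have hγ1 : (b i1 j1).coeff γ ≠ 0 := MvPolynomial.mem_support_iff.1 hj1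
    have hmax : ∀ j g, (b i1 j).coeff g ≠ 0 → hv g ≤ hv γ := fun j g hg =>
      hγm g (Finset.mem_biUnion.2 ⟨j, Finset.mem_univ _, MvPolynomial.mem_support_iff.2 hg⟩)
    obtain ⟨l, hl1, hls, hco, hne⟩ := transfer hNV hTs (h := hv γ) (hv_pos γ)
      ((hbSB i1 j1 γ hγ1).trans haT) (fun j => (((b i1 j).coeff γ : KK L hL) : GG))
      ⟨j1, fun h => hγ1 (Subtype.ext h)⟩
    have h1 := key i1 γ l hmax (fun g hg => hmax i0 g (by rw [hbi]; exact hg)) hl1
      (hMs l hl1 hls) hco (by
        intro h
        apply hne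
        have h2 := congrArg (Subtype.val : KK L hL → GG) h
        rw [ZeroMemClass.coe_zero] at h2
        rw [← h2]
        have h3 : ((∑ j, (b i1 j).coeff γ * ((c j l : ℚ) : KK L hL) : KK L hL) : GG) =
            ∑ j, (((b i1 j).coeff γ : KK L hL) : GG) * (((c j l : ℚ) : KK L hL) : GG) := by
          rw [AddSubmonoidClass.coe_finsetSum]
          rfl
        refine Eq.trans ?_ h3.symm
        refine Finset.sum_congr rfl fun j _ => ?_
        rw [cast_KK])
    have h2 : (I.card : ℝ) ≤ r := by exact_mod_cast Nat.lt_succ_iff.1 hlt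
    have h3 : (I.card : ℝ) * s ≤ r * s := mul_le_mul_of_nonneg_right h2 hs0
    linarith only [h1, h3, hls, hlB]

end Pool.Agent.Y760.ST
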