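import Pool.Agent.Y760.ST.Main
import Pool.Agent.Y760.ST.Stm2
import Pool.Agent.Y760.ST.Wd

/-!
# Project ST: Laurent monomials in the zeta values (helper760)
-/

set_option autoImplicit false

namespace Pool.Agent.Y760.ST

open Filter Topology Pool.Agent.TH507.ZS Pool.Agent.Y760.RT

/-- **Schmidt's theorem for Laurent monomials**, relative to the parts -/
theorem gaMain' (hz : Z2Stmt) (hl : LauStmt) (hsep : SepStmt) (f g : ArithmeticFunction ℚ)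
    (hf : f.IsMultiplicative) (hg : g.IsMultiplicative) (hfb : PB f) (hgb : PB g)
    (hfg : f * g = 1) (κ : ℚ) (hκ : κ ≠ 0) (hfp : ∀ p : ℕ, p.Prime → f p = κ)
    (hgp : ∀ p : ℕ, p.Prime → g p = -κ) {A h r : ℕ} (e : Fin (r + 1) → Fin A → Fin h → ℤ)
    (he : Function.Injective e) :
    ∃ D : ℝ, 1 < D ∧ ∀ C B : ℝ, 1 < B → ∃ n0 : ℕ, ∀ n : ℕ, n0 ≤ n → ∀ H : ℝ, D ^ n ≤ H →
      H ≤ C ^ n → ∀ q : Fin (r + 1) → ℤ, q ≠ 0 → (∀ i, |(q i : ℝ)| ≤ H) →
        1 / (H ^ r * B ^ n) <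
          |∑ i, (q i : ℝ) * ∏ a : Fin A, ∏ b : Fin h, dser f ((a + 1) * n + b) ^ e i a b| := by
  classical
  have hlau := fun i => hl f g hf hg hfb hgb hfg A h (e i)
  set c : Fin (r + 1) → ℕ → ℚ := fun i k => lau f g A h (e i) k with hc
  have h1 : ∀ i, c i 1 = 1 := fun i => (hlau i).1.map_one
  have hmul : ∀ i a b, Nat.Coprime a b → c i (a * b) = c i a * c i b := fun i a b hab =>
    (hlau i).1.map_mul_of_coprime hab
  have hpair : ∀ x : Fin (r + 1) × Fin (r + 1), ∃ k l0 : ℕ, x.1 ≠ x.2 → (1 ≤ k ∧ k ≤ A ∧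
      ∀ p : ℕ, p.Prime → l0 < p → lau f g A h (e x.1) (p ^ k) ≠ lau f g A h (e x.2) (p ^ k)) := by
    intro x
    by_cases hx : x.1 = x.2
    · exact ⟨0, 0, fun h => absurd hx h⟩
    · obtain ⟨k, l0, hk⟩ := hsep f g hf hg κ hκ hfp hgp A h (e x.1) (e x.2) fun h => hx (he h)
      exact ⟨k, l0, fun _ => hk⟩
  choose k l0 hkl using hpair
  obtain ⟨T, hT0, hNV⟩ := hz r (∑ x, l0 x) A c h1 hmul (by
    intro i j hij
    obtain ⟨hk1, hkA, hne⟩ := hkl (i, j) hij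
    refine ⟨k (i, j), hk1, hkA, fun l hlp hlt => hne l hlp ?_⟩
    exact lt_of_le_of_lt (Finset.single_le_sum (f := l0) (fun _ _ => Nat.zero_le _)
      (Finset.mem_univ (i, j))) hlt)
  have hT : ∀ i, Tail (fun k => (c i k : ℝ))
      (fun n => ∏ a : Fin A, ∏ b : Fin h, dser f ((a + 1) * n + b) ^ e i a b) := by
    intro i
    obtain ⟨A', hA'⟩ := (hlau i).2.1
    obtain ⟨n1, hn1⟩ := (hlau i).2.2
    exact tail_congr (tail_dser hA') (n1 := n1) fun n hn => (hn1 n hn).symm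
  refine ⟨Real.exp T, Real.one_lt_exp_iff.2 hT0, fun C B hB => ?_⟩
  obtain ⟨n0, hn0⟩ := mainS r c _ hT (by
    rw [h1]
    exact one_ne_zero) T hT0.le hNV C B hB
  refine ⟨n0, fun n hn H hH1 hH2 q hq hqH => hn0 n hn H ?_ hH2 q hq hqH⟩
  rw [mul_comm, Real.exp_nat_mul]
  exact hH1

end Pool.Agent.Y760.ST
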