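import Pool.Agent.Y760.ST.Stm

/-!
# Project ST: leading exponents (helper760)
-/

set_option autoImplicit false

namespace Pool.Agent.Y760.ST

open Filter Topology Pool.Agent.TH932.Abs Pool.Agent.TH932.Germs Pool.Agent.TH932.Chi
open Pool.Agent.TH796.AL Pool.Agent.Y760.ZG Pool.Agent.Y760.RT

lemma hv_add {m : ℕ} (a b : Fin m →₀ ℕ) : hv (a + b) = hv a * hv b := by
  unfold hv
  rw [← Finset.prod_mul_distrib]
  exact Finset.prod_congr rfl fun i _ => by rw [Finsupp.add_apply, pow_add]

lemma hv_zero {m : ℕ} : hv (0 : Fin m →₀ ℕ) = 1 := by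
  unfold hv
  exact Finset.prod_eq_one fun i _ => by rw [Finsupp.zero_apply, pow_zero]

lemma fact_hv {m : ℕ} (g : Fin m →₀ ℕ) (i : Fin m) : (hv g).factorization (pr i) = g i := by
  unfold hv
  rw [Nat.factorization_prod_apply (g := fun j : Fin m => pr j ^ g j)
    fun j _ => pow_ne_zero _ (pr_prime j).ne_zero, Finset.sum_eq_single i]
  · rw [(pr_prime i).factorization_pow, Finsupp.single_eq_same]
  · intro j _ hj
    rw [(pr_prime j).factorization_pow, Finsupp.single_eq_of_ne]
    intro h
    exact hj (Fin.ext (pr_inj h)).symm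
  · intro h
    exact absurd (Finset.mem_univ i) h

lemma hv_inj {m : ℕ} {a b : Fin m →₀ ℕ} (h : hv a = hv b) : a = b := by
  ext i
  rw [← fact_hv a i, h, fact_hv]

/-- the leading coefficient of a product -/
lemma lead {m : ℕ} {K : Type} [Field K] (F E : MvPolynomial (Fin m) K) {ν γ : Fin m →₀ ℕ}
    (hν : ∀ g, F.coeff g ≠ 0 → hv g ≤ hv ν) (hγ : ∀ g, E.coeff g ≠ 0 → hv g ≤ hv γ) :
    (F * E).coeff (ν + γ) = F.coeff ν * E.coeff γ := by
  classical
  rw [MvPolynomial.coeff_mul, Finset.sum_eq_single (ν, γ)]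
  · rintro ⟨a, b⟩ hab hne
    rw [Finset.HasAntidiagonal.mem_antidiagonal] at hab
    simp only at hab
    by_contra h
    have ha := hν a (left_ne_zero_of_mul h)
    have hb := hγ b (right_ne_zero_of_mul h)
    have h1 : hv a * hv b = hv ν * hv γ := by rw [← hv_add, ← hv_add, hab]
    have h2 : hv a = hv ν := by
      refine le_antisymm ha ?_
      by_contra hcon
      rw [not_le] at hcon
      have h3 : hv a * hv b < hv ν * hv γ :=
        Nat.mul_lt_mul_of_lt_of_le hcon hb (hv_pos γ)
      omega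
    have h3 := hv_inj h2
    apply hne
    rw [h3] at hab
    rw [h3, add_left_cancel hab]
  · intro h
    refine absurd ?_ h
    rw [Finset.HasAntidiagonal.mem_antidiagonal]

/-- a leading exponent exists -/
lemma exists_lead {m : ℕ} {K : Type} [Field K] {F : MvPolynomial (Fin m) K} (hF : F ≠ 0) :
    ∃ ν, F.coeff ν ≠ 0 ∧ ∀ g, F.coeff g ≠ 0 → hv g ≤ hv ν := by
  obtain ⟨ν, hν, h⟩ := Finset.exists_max_image F.support hv
    (by
      rw [Finset.nonempty_iff_ne_empty, Ne, MvPolynomial.support_eq_empty]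
      exact hF)
  exact ⟨ν, MvPolynomial.mem_support_iff.1 hν, fun g hg => h g (MvPolynomial.mem_support_iff.2 hg)⟩

lemma sum_ext {ι κ M : Type} [Fintype ι] [Fintype κ] [AddCommGroup M] (e : κ → ι)
    (he : Function.Injective e) (f : κ → M) (g : ι → M) :
    ∑ a, Function.extend e f g a = ∑ a, g a + ∑ k, (f k - g (e k)) := by
  rw [Fintype.sum_of_injective e he (fun k => f k - g (e k))
    (fun a => Function.extend e f g a - g a) (fun a ha => by
      rw [Function.extend_apply' _ _ _ ha, sub_self]) (fun k => by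
      rw [he.extend_apply]), ← Finset.sum_add_distrib]
  exact Finset.sum_congr rfl fun a _ => (add_sub_cancel _ _).symm

end Pool.Agent.Y760.ST
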