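import Pool.Agent.Y760.ST.Mn
import Pool.Agent.Y93.ST.Rs
import Pool.Agent.Y919.ST.Al

/-!
# Project ST: the main theorem (helper760; parts by helper93, helper919)
-/

set_option autoImplicit false

namespace Pool.Agent.Y760.ST

open Pool.Agent.Y760.RT

/-- **Schmidt's theorem for the values of Dirichlet series at large integers** -/
theorem mainS (r : ℕ) (c : Fin (r + 1) → ℕ → ℚ)
    (α : Fin (r + 1) → ℕ → ℝ) (hT : ∀ i, Tail (fun k => (c i k : ℝ)) (α i)) (hc : c 0 1 ≠ 0)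
    (T : ℝ) (hT0 : 0 ≤ T) (hNV : NV r c T) (C B : ℝ) (hB : 1 < B) :
    ∃ n0 : ℕ, ∀ n : ℕ, n0 ≤ n → ∀ H : ℝ, Real.exp (T * n) ≤ H → H ≤ C ^ n →
      ∀ q : Fin (r + 1) → ℤ, q ≠ 0 → (∀ i, |(q i : ℝ)| ≤ H) →
        1 / (H ^ r * B ^ n) < |∑ i, (q i : ℝ) * α i n| :=
  mainS' Pool.Agent.Y93.ST.rs Pool.Agent.Y919.ST.al r c α hT hc T hT0 hNV C B hB

end Pool.Agent.Y760.ST
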