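import Pool.Agent.Y760.ST.Fs

/-!
# Project ST: the main theorem, relative to the parts (helper760)
-/

set_option autoImplicit false

namespace Pool.Agent.Y760.ST

open Filter Topology Pool.Agent.TH932.Abs Pool.Agent.TH932.Germs Pool.Agent.TH932.Chi
open Pool.Agent.TH796.AL Pool.Agent.Y760.ZG Pool.Agent.Y760.RT Pool.Agent.TH932.Scale

lemma cf_dk {m M k : ℕ} (hk : k ≠ 0) (hkM : k ≤ M) :
    cf (dk m M k) = cf (Ef m M) + fun i => -(ek m k i : ℝ) := by
  have h1 := dk_add (m := m) hk hkM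
  funext i
  have h2 := DFunLike.congr_fun h1 i
  rw [Finsupp.add_apply] at h2
  have h3 : ekf m k i = ek m k i := rfl
  rw [h3] at h2
  unfold cf
  rw [Pi.add_apply, ← h2]
  push_cast
  ring

/-- the truncated series with values in the germs of rational sequences -/
noncomputable def trG (n : ℕ → ℕ) (c : ℕ → ℚ) (M : ℕ) : GG :=
  ∑ k ∈ Finset.Icc 1 M, gm (fun _ => c k) * kg n k

lemma rho_trG (n : ℕ → ℕ) (c : ℕ → ℚ) (M : ℕ) :
    rho (trG n c M) = tr n (fun k => (c k : ℝ)) M := by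
  unfold trG tr
  rw [map_sum]
  refine Finset.sum_congr rfl fun k _ => ?_
  rw [map_mul, rho_gm, cst_eq]

lemma phi_Tp {n : ℕ → ℕ} (hn : ∀ t, t ≤ n t) {m M : ℕ} (κ : ℕ → KK (Ln n) (tLn hn))
    (hκ : ∀ k, k ≠ 0 → k ≤ M → kg n k = (κ k : GG) * ch (bs m) (tLn hn) (fun i => -(ek m k i : ℝ)))
    (c : ℕ → ℚ) :
    phi (bs m) (tLn hn) (Tp (tLn hn) M κ c) = ch (bs m) (tLn hn) (cf (Ef m M)) * trG n c M := by
  unfold Tp trG
  rw [map_sum, Finset.mul_sum]
  refine Finset.sum_congr rfl fun k hk => ?_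
  rw [Finset.mem_Icc] at hk
  rw [phi_monomial, hκ k (by omega) hk.2, cf_dk (by omega) hk.2, ch_add]
  have h1 : ((κ k * ((c k : ℚ) : KK (Ln n) (tLn hn)) : KK (Ln n) (tLn hn)) : GG) =
      (κ k : GG) * gm (fun _ => c k) := by
    rw [← cast_KK (tLn hn)]
    rfl
  rw [h1]
  ring

/-- **linear forms in the values of Dirichlet series at large integers** -/
theorem mainS' (hrs : RsStmt) (hal : AlStmt) (r : ℕ) (c : Fin (r + 1) → ℕ → ℚ)
    (α : Fin (r + 1) → ℕ → ℝ) (hT : ∀ i, Tail (fun k => (c i k : ℝ)) (α i)) (hc : c 0 1 ≠ 0)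
    (T : ℝ) (hT0 : 0 ≤ T) (hNV : NV r c T) (C B : ℝ) (hB : 1 < B) :
    ∃ n0 : ℕ, ∀ n : ℕ, n0 ≤ n → ∀ H : ℝ, Real.exp (T * n) ≤ H → H ≤ C ^ n →
      ∀ q : Fin (r + 1) → ℤ, q ≠ 0 → (∀ i, |(q i : ℝ)| ≤ H) →
        1 / (H ^ r * B ^ n) < |∑ i, (q i : ℝ) * α i n| := by
  classical
  by_contra hcon
  push Not at hcon
  have h1 : ∀ t : ℕ, ∃ (n : ℕ) (H : ℝ) (q : Fin (r + 1) → ℤ), t ≤ n ∧ Real.exp (T * n) ≤ H ∧
      H ≤ C ^ n ∧ q ≠ 0 ∧ (∀ i, |(q i : ℝ)| ≤ H) ∧
      |∑ i, (q i : ℝ) * α i n| ≤ 1 / (H ^ r * B ^ n) := by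
    intro t
    obtain ⟨n, hn, H, hH1, hH2, q, hq0, hqH, h2⟩ := hcon t
    exact ⟨n, H, q, hn, hH1, hH2, hq0, hqH, h2⟩
  choose n H q hn hH1 hH2 hq0 hqH happ using h1
  have hB0 : ∀ n : ℕ, 0 < B ^ n := fun n => pow_pos (by linarith only [hB]) n
  have hlB : 0 < Real.log B := Real.log_pos hB
  have hH0 : ∀ t, 0 < H t := fun t => lt_of_lt_of_le (Real.exp_pos _) (hH1 t)
  have hlogH : ∀ t, T * Ln n t ≤ Real.log (H t) := fun t => by
    rw [Real.le_log_iff_exp_le (hH0 t)]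
    exact hH1 t
  have hLn0 : ∀ t, 0 ≤ Ln n t := fun t => by
    unfold Ln
    positivity
  have hC1 : ∀ t, H t ≤ (|C| + 1) ^ n t := by
    intro t
    refine ((hH2 t).trans (le_abs_self _)).trans ?_
    rw [abs_pow]
    exact pow_le_pow_left₀ (abs_nonneg _) (by linarith only []) _
  obtain ⟨s, hs0, -, hs⟩ := exists_st (L := Ln n) (tLn hn) (a := fun t => Real.log (H t))
    (A := Real.log (|C| + 1)) (Eventually.of_forall fun t => by
      refine ⟨le_trans (mul_nonneg hT0 (hLn0 t)) (hlogH t), ?_⟩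
      have h2 := Real.log_le_log (hH0 t) (hC1 t)
      rw [Real.log_pow, mul_comm] at h2
      exact h2)
  have hTs : T ≤ s := by
    by_contra hcon2
    rw [not_le] at hcon2
    obtain ⟨t, ht1, ht2⟩ := ((hs ((T - s) / 2) (by linarith only [hcon2])).and
      (ev_of_atTop ((tLn hn).eventually_ge_atTop 1))).exists
    have h3 := hlogH t
    have h4 := (abs_le.1 ht1).2
    nlinarith only [h3, h4, ht2, hcon2]
  -- the germs
  set Q : Fin (r + 1) → GG := fun i => gm fun t => (q t i : ℚ) with hQ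
  have hIG : ∀ i, IG (Ln n) (s + 1) (Q i) := by
    intro i
    refine ⟨fun t => q t i, rfl, ?_⟩
    filter_upwards [near_le hH0 hs one_pos] with t h2
    exact (hqH t i).trans h2.1
  have hinfR : ∀ i, rho (Q i) ∈ SR (Ln n) (-s) := by
    intro i
    rw [hQ]
    simp only
    rw [rho_gm, mem_SR]
    intro ε hε
    filter_upwards [near_le hH0 hs hε] with t h2
    push_cast
    refine ((hqH t i).trans h2.1).trans (le_of_eq ?_)
    congr 1
    ring
  have hQne : ∃ i, Q i ≠ 0 := by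
    by_contra hcon2
    push Not at hcon2
    have h2 : ∀ i, ∀ᶠ t in (UU : Filter ℕ), q t i = 0 := by
      intro i
      have h3 := hcon2 i
      rw [hQ] at h3
      simp only at h3
      rw [← gm_zero, gm_eq] at h3
      filter_upwards [h3] with t ht
      exact_mod_cast ht
    obtain ⟨t, ht⟩ := (Filter.eventually_all.2 h2).exists
    exact hq0 t (funext ht)
  -- the parameters
  obtain ⟨M1, hM1⟩ := exists_M (((r : ℝ) + 1) * s + Real.log B)
  set M := max M1 1 with hM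
  have hMM : ((r : ℝ) + 1) * s + Real.log B ≤ Real.log ((M : ℝ) + 1) :=
    hM1.trans (log_mono (le_max_left _ _))
  have hM1' : 1 ≤ M := le_max_right _ _
  have hMp : ∀ k ≤ M, k < pr M := fun k hk => by
    have := pr_ge' M
    omega
  have hMs : ∀ l : ℕ, 1 ≤ l → Real.log l ≤ s → l ≤ M := by
    intro l hl hls
    have h2 : Real.log l < Real.log ((M : ℝ) + 1) := by
      have h3 : (0 : ℝ) ≤ r * s := mul_nonneg (Nat.cast_nonneg _) hs0
      linarith only [hls, hMM, h3, hlB]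
    have h3 : (l : ℝ) < (M : ℝ) + 1 := by
      have h4 : (0 : ℝ) < (M : ℝ) + 1 := by positivity
      exact (Real.log_lt_log_iff (by exact_mod_cast hl) h4).1 h2
    have h4 : l < M + 1 := by exact_mod_cast h3
    omega
  have hκ' : ∀ k, ∃ κ : KK (Ln n) (tLn hn), k ≠ 0 → k ≤ M → κ ≠ 0 ∧
      kg n k = (κ : GG) * ch (bs M) (tLn hn) (fun i => -(ek M k i : ℝ)) := by
    intro k
    by_cases hk : k ≠ 0 ∧ k ≤ M
    · obtain ⟨κ, h2, h3⟩ := kg_eq hn hk.1 (hMp k hk.2)
      exact ⟨κ, fun _ _ => ⟨h2, h3⟩⟩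
    · exact ⟨0, fun h2 h3 => absurd ⟨h2, h3⟩ hk⟩
  choose κ hκ using hκ'
  refine fin_step hrs hal (m := M) (tLn hn) Q hQne hs0 (fun v i => (hIG i).fin (tLn hn) _ v)
    (fun i => (hIG i).sint (tLn hn) _) (fun i => SR_rho' (hinfR i)) c hc hNV hTs hlB hMp hM1'
    hMs κ (fun k h2 h3 => (hκ k (by omega) h3).1) ?_
  have h2 : ∑ i, phi (bs M) (tLn hn) (Tp (tLn hn) M κ (c i)) * Q i =
      ch (bs M) (tLn hn) (cf (Ef M M)) * ∑ i, trG n (c i) M * Q i := by
    rw [Finset.mul_sum]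
    refine Finset.sum_congr rfl fun i _ => ?_
    rw [phi_Tp hn κ (fun k h3 h4 => (hκ k h3 h4).2), mul_assoc]
  rw [h2, show (r : ℝ) * s + Real.log B - Real.log (hv (Ef M M)) =
    -Real.log (hv (Ef M M)) + (r * s + Real.log B) by ring, ← lv_cf]
  refine (filt_v (tLn hn) none).mul_mem (ch_mem (tLn hn) none _) (SR_rho' ?_)
  -- the linear form
  have h3 : gr (fun t => ∑ i, (q t i : ℝ) * α i (n t)) ∈ SR (Ln n) (r * s + Real.log B) := by
    rw [mem_SR]
    intro ε hε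
    have hε' : 0 < ε / (r + 1) := div_pos hε (by positivity)
    filter_upwards [near_le hH0 hs hε'] with t h4
    refine (happ t).trans ?_
    have h5 : Real.exp (-(r * s + Real.log B - ε) * Ln n t) =
        1 / (Real.exp ((r * s - ε) * Ln n t) * B ^ n t) := by
      rw [one_div, mul_inv, ← Real.exp_neg]
      conv_rhs => rw [← Real.exp_log (inv_pos.2 (hB0 (n t))), ← Real.exp_add, Real.log_inv,
        Real.log_pow]
      congr 1
      unfold Ln
      ring
    rw [h5]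
    refine one_div_le_one_div_of_le (mul_pos (Real.exp_pos _) (hB0 _)) ?_
    refine mul_le_mul_of_nonneg_right ?_ (hB0 _).le
    have h6 : Real.exp ((s - ε / (r + 1)) * Ln n t) ^ r ≤ H t ^ r :=
      pow_le_pow_left₀ (Real.exp_pos _).le h4.2 r
    refine le_trans ?_ h6
    rw [← Real.exp_nat_mul]
    refine Real.exp_le_exp.2 ?_
    rw [← mul_assoc]
    refine mul_le_mul_of_nonneg_right ?_ (hLn0 t)
    have h7 : (r : ℝ) * (ε / (r + 1)) ≤ ε := by
      rw [mul_div_assoc', div_le_iff₀ (by positivity)]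
      nlinarith only [hε]
    linarith only [h7]
  have h4 : gr (fun t => ∑ i, (q t i : ℝ) * α i (n t)) =
      ∑ i, rho (Q i) * gr (fun t => α i (n t)) := by
    have h5 : ∀ i, rho (Q i) * gr (fun t => α i (n t)) =
        gr (fun t => (q t i : ℝ) * α i (n t)) := by
      intro i
      rw [hQ]
      simp only
      rw [rho_gm, gr_mul]
      congr 1
    rw [Finset.sum_congr rfl fun i _ => h5 i, gr_sum]
  have h5 : ∑ i, rho (Q i) * (gr (fun t => α i (n t)) - tr n (fun k => (c i k : ℝ)) M) ∈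
      SR (Ln n) (r * s + Real.log B) := by
    refine SR_sum (tLn hn) _ _ fun i _ => ?_
    obtain ⟨A, hA⟩ := hT i M
    have h6 := SR_mul (tLn hn) (hinfR i) (tail_mem hn _ (α i) M hA)
    refine SR_anti (tLn hn) ?_ h6
    linarith only [hMM]
  have h6 := SR_sub (tLn hn) h3 h5
  rw [h4, ← Finset.sum_sub_distrib] at h6
  rw [map_sum]
  have h7 : ∀ i, rho (Q i) * gr (fun t => α i (n t)) -
      rho (Q i) * (gr (fun t => α i (n t)) - tr n (fun k => (c i k : ℝ)) M) =
      rho (trG n (c i) M * Q i) := by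
    intro i
    rw [map_mul, rho_trG]
    ring
  rw [Finset.sum_congr rfl fun i _ => h7 i] at h6
  exact h6

end Pool.Agent.Y760.ST
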