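import Pool.Agent.Y760.ST.Lead

/-!
# Project ST: linear forms in integers without polynomial relations (helper760)
-/

set_option autoImplicit false

namespace Pool.Agent.Y760.ST

open Filter Topology Pool.Agent.TH932.Abs Pool.Agent.TH932.Germs Pool.Agent.TH932.Chi
open Pool.Agent.TH796.AL Pool.Agent.Y760.ZG Pool.Agent.Y760.RT

section

variable {m : ℕ} {L : ℕ → ℝ} (hL : Tendsto L atTop atTop)

/-- shifted exponents in a larger box -/
def shf {m N D : ℕ} (γ : Fin m →₀ ℕ) (hγ : ∀ i, γ i ≤ D) (ν : Fin m → Fin (N + 1)) :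
    Fin m → Fin (N + D + 1) :=
  fun i => ⟨(ν i : ℕ) + γ i, by
    have h1 := (ν i).2
    have h2 := hγ i
    omega⟩

lemma shf_inj {m N D : ℕ} (γ : Fin m →₀ ℕ) (hγ : ∀ i, γ i ≤ D) :
    Function.Injective (shf (N := N) γ hγ) := by
  intro a b h
  funext i
  have h1 := congrArg Fin.val (congrFun h i)
  unfold shf at h1
  simp only at h1
  exact Fin.ext (by omega)

lemma uu_shf {m N D : ℕ} (γ : Fin m →₀ ℕ) (hγ : ∀ i, γ i ≤ D) (ν : Fin m → Fin (N + 1)) :
    uu 0 (shf γ hγ ν) = uu 0 ν + γ := by
  ext i
  unfold uu shf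
  rw [Finsupp.add_apply, Finsupp.equivFunOnFinite_symm_apply_apply,
    Finsupp.equivFunOnFinite_symm_apply_apply]
  simp only
  omega

lemma phi_as_sum {ι : Type} [Fintype ι] (f : ι → Fin m →₀ ℕ) (c : ι → KK L hL) :
    phi (bs m) hL (∑ a, MvPolynomial.monomial (f a) (c a)) =
      ∑ a, (c a : GG) * ch (bs m) hL (cf (f a)) := by
  rw [map_sum]
  exact Finset.sum_congr rfl fun a _ => phi_monomial _ _ _ _

lemma lv_cf_add (γ ν : Fin m →₀ ℕ) :
    lv (bs m) none (cf (ν + γ)) = lv (bs m) none (cf ν) - Real.log (hv γ) := by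
  rw [lv_cf, lv_cf, hv_add, Nat.cast_mul, Real.log_mul]
  · ring
  · exact_mod_cast (hv_pos ν).ne'
  · exact_mod_cast (hv_pos γ).ne'

/-- monomials in a box -/
lemma mem_span {N : ℕ} {I : Type} [Fintype I] (q : I → GG) (P : MvPolynomial (Fin m) (KK L hL))
    (hP : ∀ g, P.coeff g ≠ 0 → ∀ i, g i ≤ N) (i : I) :
    phi (bs m) hL P * q i ∈ Submodule.span (KK L hL)
      (Set.range fun a : I × (Fin m → Fin (N + 1)) => ch (bs m) hL (cf (uu 0 a.2)) * q a.1) := by
  rw [phi_eq, Finset.sum_mul]
  refine Submodule.sum_mem _ fun g hg => ?_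
  rw [mul_assoc]
  have h1 := hP g (MvPolynomial.mem_support_iff.1 hg)
  have h2 : cf g = cf (uu 0 (fun i => (⟨g i, by
      have := h1 i
      omega⟩ : Fin (N + 1)))) := by
    congr 1
    ext j
    unfold uu
    rw [Finsupp.equivFunOnFinite_symm_apply_apply, add_zero]
  refine Submodule.smul_mem _ (P.coeff g) (Submodule.subset_span ⟨(i, fun i => (⟨g i, by
      have := h1 i
      omega⟩ : Fin (N + 1))), ?_⟩)
  simp only
  rw [← h2]

/-- **linear forms in integers without relations** -/
theorem nd : NdStmt := by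
  classical
  intro m L hL I _ q i0 E g s σ hli hfin hint hinf hg hΦ
  -- the leading exponent
  have hE0 : E i0 ≠ 0 := by
    intro h
    rw [h, MvPolynomial.coeff_zero] at hg
    exact hg rfl
  obtain ⟨γ, hγ0, hγm⟩ := exists_lead hE0
  have hlog : Real.log (hv g) ≤ Real.log (hv γ) :=
    Real.log_le_log (by exact_mod_cast hv_pos g) (by exact_mod_cast hγm g hg)
  refine le_trans (add_le_add_left hlog σ) ?_
  by_contra hcon
  rw [not_le] at hcon
  set Φ : GG := ∑ i, phi (bs m) hL (E i) * q i with hΦdef
  -- the size of the exponents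
  obtain ⟨D, hD⟩ : ∃ D : ℕ, ∀ i g, (E i).coeff g ≠ 0 → ∀ v, g v ≤ D := by
    refine ⟨∑ i, ∑ g ∈ (E i).support, ∑ v, g v, fun i g hg v => ?_⟩
    refine le_trans (Finset.single_le_sum (f := fun v => g v) (fun _ _ => Nat.zero_le _)
      (Finset.mem_univ v)) ?_
    refine le_trans (Finset.single_le_sum (f := fun g : Fin m →₀ ℕ => ∑ v, g v)
      (fun _ _ => Nat.zero_le _) (MvPolynomial.mem_support_iff.2 hg)) ?_
    exact Finset.single_le_sum (f := fun i => ∑ g ∈ (E i).support, ∑ v, g v)
      (fun _ _ => Nat.zero_le _) (Finset.mem_univ i)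
  have hγD : ∀ v, γ v ≤ D := hD i0 γ hγ0
  obtain ⟨N, hN⟩ := exists_box m D (Fintype.card I * s)
    (Real.log (hv γ) + σ + s - Fintype.card I * s) (by linarith only [hcon])
  set J1 : Type := Fin m → Fin (N + 1) with hJ1
  set J2 : Type := Fin m → Fin (N + D + 1) with hJ2
  set e : J1 → I × J2 := fun ν => (i0, shf γ hγD ν) with he
  have hei : Function.Injective e := fun a b h => shf_inj γ hγD (congrArg Prod.snd h)
  set x : I × J2 → GG := fun a => ch (bs m) hL (cf (uu 0 a.2)) * q a.1 with hx
  set z : I × J2 → GG := Function.extend e (fun ν => ch (bs m) hL (cf (uu 0 ν)) * Φ) x with hz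
  -- relations of the coordinates
  have hrel : ∀ (c : I × J2 → KK L hL) (F : MvPolynomial (Fin m) (KK L hL)),
      ∑ a, (c a : GG) * x a + phi (bs m) hL F * Φ = 0 →
      ∀ i, ∑ μ : J2, MvPolynomial.monomial (uu 0 μ) (c (i, μ)) + F * E i = 0 := by
    intro c F h
    refine hli _ ?_
    rw [← h, Fintype.sum_prod_type, hΦdef, Finset.mul_sum, ← Finset.sum_add_distrib]
    refine Finset.sum_congr rfl fun i _ => ?_
    rw [map_add, phi_as_sum, map_mul, add_mul, mul_assoc, Finset.sum_mul]
    congr 1
    refine Finset.sum_congr rfl fun μ _ => ?_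
    rw [hx]
    simp only
    rw [mul_assoc]
  -- independence of the coordinates
  have hxli : ∀ c : I × J2 → KK L hL, ∑ a, (c a : GG) * x a = 0 → ∀ a, c a = 0 := by
    intro c hc a
    have h1 := hrel c 0 (by rw [hc, map_zero, zero_mul, add_zero]) a.1
    rw [zero_mul, add_zero] at h1
    have h2 := coeff_sum_mono hL (uu 0) (uu_inj 0) (fun μ : J2 => c (a.1, μ)) a.2
    rw [h1, MvPolynomial.coeff_zero] at h2
    exact h2.symm
  have hzli : ∀ c : I × J2 → KK L hL, ∑ a, (c a : GG) * z a = 0 → ∀ a, c a = 0 := by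
    intro c hc
    set F : MvPolynomial (Fin m) (KK L hL) :=
      ∑ ν : J1, MvPolynomial.monomial (uu 0 ν) (c (e ν)) with hF
    set c' : I × J2 → KK L hL := Function.extend e (fun _ => 0) c with hc'
    have h1 : ∑ a, (c' a : GG) * x a + phi (bs m) hL F * Φ = 0 := by
      rw [← hc, hF, phi_as_sum]
      have h2 : ∀ a, (c a : GG) * z a =
          Function.extend e (fun ν => (c (e ν) : GG) * (ch (bs m) hL (cf (uu 0 ν)) * Φ))
            (fun a => (c a : GG) * x a) a := by
        intro a
        by_cases ha : ∃ ν, e ν = a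
        · obtain ⟨ν, rfl⟩ := ha
          rw [hz, hei.extend_apply, hei.extend_apply]
        · rw [hz, Function.extend_apply' _ _ _ ha, Function.extend_apply' _ _ _ ha]
      have h3 : ∀ a, (c' a : GG) * x a =
          Function.extend e (fun _ => (0 : GG)) (fun a => (c a : GG) * x a) a := by
        intro a
        by_cases ha : ∃ ν, e ν = a
        · obtain ⟨ν, rfl⟩ := ha
          rw [hc', hei.extend_apply, hei.extend_apply, ZeroMemClass.coe_zero, zero_mul]
        · rw [hc', Function.extend_apply' _ _ _ ha, Function.extend_apply' _ _ _ ha]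
      rw [Finset.sum_congr rfl fun a _ => h2 a, Finset.sum_congr rfl fun a _ => h3 a,
        sum_ext e hei, sum_ext e hei, add_assoc, Finset.sum_mul, ← Finset.sum_add_distrib]
      congr 1
      refine Finset.sum_congr rfl fun ν _ => ?_
      ring
    have h4 := hrel c' F h1
    have hF0 : F = 0 := by
      by_contra hne
      obtain ⟨ν, hν0, hνm⟩ := exists_lead hne
      have h5 := congrArg (MvPolynomial.coeff (ν + γ)) (h4 i0)
      obtain ⟨ν', hν'⟩ : ∃ ν' : J1, uu 0 ν' = ν := by
        by_contra hcon2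
        push Not at hcon2
        apply hν0
        rw [hF, MvPolynomial.coeff_sum]
        refine Finset.sum_eq_zero fun a _ => ?_
        rw [MvPolynomial.coeff_monomial, if_neg (hcon2 a)]
      have h6 : (∑ μ : J2, MvPolynomial.monomial (uu 0 μ) (c' (i0, μ)) :
          MvPolynomial (Fin m) (KK L hL)).coeff (ν + γ) = 0 := by
        have h7 := coeff_sum_mono hL (uu 0) (uu_inj 0) (fun μ : J2 => c' (i0, μ))
          (shf γ hγD ν')
        rw [uu_shf, hν'] at h7
        rw [h7]
        have h8 : ((i0, shf γ hγD ν') : I × J2) = e ν' := rfl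
        rw [h8, hc', hei.extend_apply]
      rw [MvPolynomial.coeff_add, h6, zero_add, lead F (E i0) hνm hγm,
        MvPolynomial.coeff_zero] at h5
      exact (mul_ne_zero hν0 hγ0) h5
    have h9 : ∀ ν, c (e ν) = 0 := by
      intro ν
      have h10 := coeff_sum_mono hL (uu 0) (uu_inj 0) (fun ν : J1 => c (e ν)) ν
      rw [← h10, ← hF, hF0, MvPolynomial.coeff_zero]
    have h11 := hxli c' (by
      rw [hF0, map_zero, zero_mul, add_zero] at h1
      exact h1)
    intro a
    by_cases ha : ∃ ν, e ν = a
    · obtain ⟨ν, rfl⟩ := ha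
      exact h9 ν
    · have h12 := h11 a
      rw [hc', Function.extend_apply' _ _ _ ha] at h12
      exact h12
  -- both families span the same space
  have hli1 : LinearIndependent (KK L hL) x := by
    rw [Fintype.linearIndependent_iff]
    exact hxli
  have hli2 : LinearIndependent (KK L hL) z := by
    rw [Fintype.linearIndependent_iff]
    exact hzli
  have hxsp : ∀ a, x a ∈ Submodule.span (KK L hL) (Set.range x) := fun a =>
    Submodule.subset_span ⟨a, rfl⟩
  have hzsp : ∀ a, z a ∈ Submodule.span (KK L hL) (Set.range x) := by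
    intro a
    by_cases ha : ∃ ν, e ν = a
    · obtain ⟨ν, rfl⟩ := ha
      rw [hz, hei.extend_apply, hΦdef, Finset.mul_sum]
      refine Submodule.sum_mem _ fun i _ => ?_
      have h1 : ch (bs m) hL (cf (uu 0 ν)) * (phi (bs m) hL (E i) * q i) =
          phi (bs m) hL (MvPolynomial.monomial (uu 0 ν) 1 * E i) * q i := by
        rw [map_mul, phi_monomial, OneMemClass.coe_one, one_mul, mul_assoc]
      rw [h1]
      refine mem_span hL q _ (fun g' hg' v => ?_) i
      rw [MvPolynomial.coeff_monomial_mul'] at hg'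
      split_ifs at hg' with h2
      · rw [one_mul] at hg'
        have h3 := hD i _ hg' v
        rw [Finsupp.tsub_apply] at h3
        have h4 : uu 0 ν v ≤ N := by
          unfold uu
          rw [Finsupp.equivFunOnFinite_symm_apply_apply]
          have := (ν v).2
          omega
        omega
      · exact absurd rfl hg'
    · rw [hz, Function.extend_apply' _ _ _ ha]
      exact hxsp a
  have hspan : Submodule.span (KK L hL) (Set.range z) = Submodule.span (KK L hL) (Set.range x) := by
    haveI : FiniteDimensional (KK L hL) (Submodule.span (KK L hL) (Set.range x)) :=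
      FiniteDimensional.span_of_finite _ (Set.finite_range x)
    refine Submodule.eq_of_le_of_finrank_eq ?_ ?_
    · rw [Submodule.span_le]
      rintro _ ⟨a, rfl⟩
      exact hzsp a
    · rw [finrank_span_eq_card hli1, finrank_span_eq_card hli2]
  have hexp : ∀ y ∈ Submodule.span (KK L hL) (Set.range x), ∃ c : I × J2 → KK L hL,
      y = ∑ a, (c a : GG) * z a := by
    intro y hy
    rw [← hspan] at hy
    obtain ⟨c, hc⟩ := (Submodule.mem_span_range_iff_exists_fun (KK L hL)).1 hy
    exact ⟨c, hc.symm⟩
  -- weights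
  set w0 : I × J2 → ℝ := fun a => lv (bs m) none (cf (uu 0 a.2)) - s with hw0
  set w1 : J1 → ℝ := fun ν => lv (bs m) none (cf (uu 0 ν)) + σ with hw1
  have hxint : ∀ a, Sint (bs m) L (x a) := fun a => Sint.mul hL (ch_sint hL _) (hint _)
  have hPhiint : Sint (bs m) L Φ := by
    rw [hΦdef]
    refine Sint.sum hL _ _ fun i _ => Sint.mul hL ?_ (hint _)
    rw [phi_eq]
    exact Sint.sum hL _ _ fun g _ => Sint.mul hL (Sint.alg hL _) (ch_sint hL _)
  have hmain := movq_thm m (bs m) L hL (I × J2) inferInstance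
    (fun v => v.elim z (fun _ => x))
    (fun v => v.elim (Function.extend e w1 w0) (fun v a => lv (bs m) (some v) (cf (uu 0 a.2))))
    (by
      intro v
      cases v with
      | none => exact hzli
      | some v => exact hxli)
    (by
      intro v a
      cases v with
      | none => exact hexp _ (hzsp a)
      | some v => exact hexp _ (hxsp a))
    (by
      intro v a
      cases v with
      | none =>
        show z a ∈ Sv (bs m) L none (Function.extend e w1 w0 a)
        by_cases ha : ∃ ν, e ν = a
        · obtain ⟨ν, rfl⟩ := ha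
          rw [hz, hei.extend_apply, hei.extend_apply]
          exact (filt_v hL none).mul_mem (ch_mem hL none _) hΦ
        · rw [hz, Function.extend_apply' _ _ _ ha, Function.extend_apply' _ _ _ ha]
          exact (filt_v hL none).mul_mem (ch_mem hL none _) (hinf _)
      | some v =>
        have h1 := (filt_v hL (some v)).mul_mem (ch_mem (B := bs m) hL (some v)
          (cf (uu 0 a.2))) (hfin v a.1)
        rw [add_zero] at h1
        exact h1)
    (by
      intro a
      show Sint (bs m) L (z a)
      by_cases ha : ∃ ν, e ν = a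
      · obtain ⟨ν, rfl⟩ := ha
        rw [hz, hei.extend_apply]
        exact Sint.mul hL (ch_sint hL _) hPhiint
      · rw [hz, Function.extend_apply' _ _ _ ha]
        exact hxint a)
  have hs : ∀ g : Fin m → ℝ, ∑ v : Fin m, lv (bs m) (some v) g + lv (bs m) none g = 0 := by
    intro g
    have h1 := lv_sum (B := bs m) g
    rw [Fintype.sum_option] at h1
    linarith only [h1]
  have c1 : (Fintype.card J1 : ℝ) = ((N : ℝ) + 1) ^ m := by
    show (Fintype.card (Fin m → Fin (N + 1)) : ℝ) = _
    rw [Fintype.card_fun, Fintype.card_fin, Fintype.card_fin]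
    push_cast
    rfl
  have c2 : (Fintype.card J2 : ℝ) = ((N : ℝ) + D + 1) ^ m := by
    show (Fintype.card (Fin m → Fin (N + D + 1)) : ℝ) = _
    rw [Fintype.card_fun, Fintype.card_fin, Fintype.card_fin]
    push_cast
    rfl
  rw [Fintype.sum_option] at hmain
  simp only [Option.elim_none, Option.elim_some] at hmain
  rw [sum_ext e hei, Finset.sum_comm] at hmain
  have h1 : ∑ a : I × J2, w0 a + ∑ a : I × J2, ∑ v : Fin m, lv (bs m) (some v) (cf (uu 0 a.2)) =
      -(((N : ℝ) + D + 1) ^ m * (Fintype.card I * s)) := by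
    rw [← Finset.sum_add_distrib]
    have h2 : ∀ a : I × J2, w0 a + ∑ v : Fin m, lv (bs m) (some v) (cf (uu 0 a.2)) = -s := by
      intro a
      have h3 := hs (cf (uu 0 a.2))
      rw [hw0]
      simp only
      linarith only [h3]
    rw [Finset.sum_congr rfl fun a _ => h2 a, Finset.sum_const, nsmul_eq_mul, Finset.card_univ,
      Fintype.card_prod, Nat.cast_mul, c2]
    ring
  have h2 : ∑ ν : J1, (w1 ν - w0 (e ν)) =
      ((N : ℝ) + 1) ^ m * (Real.log (hv γ) + σ + s) := by
    have h3 : ∀ ν : J1, w1 ν - w0 (e ν) = Real.log (hv γ) + σ + s := by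
      intro ν
      rw [hw1, hw0, he]
      simp only
      rw [uu_shf, lv_cf_add]
      ring
    rw [Finset.sum_congr rfl fun a _ => h3 a, Finset.sum_const, nsmul_eq_mul, Finset.card_univ, c1]
  have h3 : ((N : ℝ) + 1) ^ m * (Fintype.card I * s +
      (Real.log (hv γ) + σ + s - Fintype.card I * s)) =
      ((N : ℝ) + 1) ^ m * (Real.log (hv γ) + σ + s) := by
    congr 1
    ring
  rw [h3] at hN
  linarith only [hmain, h1, h2, hN]

end

end Pool.Agent.Y760.ST
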