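import Pool.Agent.Y760.ST.Nd

/-!
# Project ST: linear forms with algebraic coefficients in integers without polynomial relations
(helper760)
-/

set_option autoImplicit false

namespace Pool.Agent.Y760.ST

open Filter Topology Pool.Agent.TH932.Abs Pool.Agent.TH932.Germs Pool.Agent.TH932.Chi
open Pool.Agent.TH796.AL Pool.Agent.Y760.ZG Pool.Agent.Y760.RT Pool.Agent.TH147.AL

/-- the leading coefficient of a product -/
lemma leadA {m : ℕ} {K : Type} [CommRing K] (F E : MvPolynomial (Fin m) K) {ν γ : Fin m →₀ ℕ}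
    (hν : ∀ g, F.coeff g ≠ 0 → hv g ≤ hv ν) (hγ : ∀ g, E.coeff g ≠ 0 → hv g ≤ hv γ) :
    (F * E).coeff (ν + γ) = F.coeff ν * E.coeff γ := by
  classical
  rw [MvPolynomial.coeff_mul, Finset.sum_eq_single (ν, γ)]
  · rintro ⟨a, b⟩ hab hne
    rw [Finset.HasAntidiagonal.mem_antidiagonal] at hab
    simp only at hab
    by_contra h
    have ha := hν a (left_ne_zero_of_mul h)
    have hb := hγ b (right_ne_zero_of_mul h)
    have h1 : hv a * hv b = hv ν * hv γ := by rw [← hv_add, ← hv_add, hab]
    have h2 : hv a = hv ν := by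
      refine le_antisymm ha ?_
      by_contra hcon
      rw [not_le] at hcon
      have h3 : hv a * hv b < hv ν * hv γ :=
        Nat.mul_lt_mul_of_lt_of_le hcon hb (hv_pos γ)
      omega
    have h3 := hv_inj h2
    apply hne
    rw [h3] at hab
    rw [h3, add_left_cancel hab]
  · intro h
    refine absurd ?_ h
    rw [Finset.HasAntidiagonal.mem_antidiagonal]

lemma exists_leadA {m : ℕ} {K : Type} [CommRing K] {F : MvPolynomial (Fin m) K} (hF : F ≠ 0) :
    ∃ ν, F.coeff ν ≠ 0 ∧ ∀ g, F.coeff g ≠ 0 → hv g ≤ hv ν := by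
  obtain ⟨ν, hν, h⟩ := Finset.exists_max_image F.support hv
    (by
      rw [Finset.nonempty_iff_ne_empty, Ne, MvPolynomial.support_eq_empty]
      exact hF)
  exact ⟨ν, MvPolynomial.mem_support_iff.1 hν, fun g hg => h g (MvPolynomial.mem_support_iff.2 hg)⟩

section

variable {m : ℕ} {L : ℕ → ℝ} (hL : Tendsto L atTop atTop) (F : IntermediateField ℚ ℝ)

/-- evaluation of polynomials with coefficients in `KA` -/
noncomputable def phiA : MvPolynomial (Fin m) (KA F hL) →+* HR :=
  MvPolynomial.eval₂Hom (algebraMap (KA F hL) HR)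
    (fun i => rho (ch (bs m) hL (Pi.single i 1)))

lemma phiA_monomial (g : Fin m →₀ ℕ) (c : KA F hL) :
    phiA hL F (MvPolynomial.monomial g c) = (c : HR) * rho (ch (bs m) hL (cf g)) := by
  unfold phiA
  rw [MvPolynomial.coe_eval₂Hom, MvPolynomial.eval₂_monomial, Finsupp.prod_fintype _ _ (by simp)]
  have h1 : (algebraMap (KA F hL) HR) c = (c : HR) := rfl
  rw [h1]
  congr 1
  have h2 : cf g = ∑ i, (g i) • (Pi.single i (1 : ℝ) : Fin m → ℝ) := by
    funext j
    rw [Finset.sum_apply, Finset.sum_eq_single j]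
    · rw [Pi.smul_apply, Pi.single_eq_same, nsmul_eq_mul, mul_one]
      rfl
    · intro i _ hi
      rw [Pi.smul_apply, Pi.single_eq_of_ne hi.symm, smul_zero]
    · intro h
      exact absurd (Finset.mem_univ j) h
  rw [h2, ch_finsum, map_prod]
  refine Finset.prod_congr rfl fun i _ => ?_
  rw [ch_nsmul, map_pow]

lemma phiA_eq (A : MvPolynomial (Fin m) (KA F hL)) :
    phiA hL F A = ∑ g ∈ A.support, ((A.coeff g : KA F hL) : HR) * rho (ch (bs m) hL (cf g)) := by
  conv_lhs => rw [A.as_sum]
  rw [map_sum]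
  exact Finset.sum_congr rfl fun g _ => phiA_monomial hL F g _

lemma phiA_as_sum {ι : Type} [Fintype ι] (f : ι → Fin m →₀ ℕ) (c : ι → KA F hL) :
    phiA hL F (∑ a, MvPolynomial.monomial (f a) (c a)) =
      ∑ a, (c a : HR) * rho (ch (bs m) hL (cf (f a))) := by
  rw [map_sum]
  exact Finset.sum_congr rfl fun a _ => phiA_monomial hL F _ _

lemma coeff_sum_monoA {ι : Type} [Fintype ι] (f : ι → Fin m →₀ ℕ) (hf : Function.Injective f)
    (c : ι → KA F hL) (i : ι) :
    (∑ j, MvPolynomial.monomial (f j) (c j) : MvPolynomial (Fin m) (KA F hL)).coeff (f i) = c i := by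
  classical
  rw [MvPolynomial.coeff_sum, Finset.sum_eq_single i]
  · rw [MvPolynomial.coeff_monomial, if_pos rfl]
  · intro j _ hj
    rw [MvPolynomial.coeff_monomial, if_neg]
    exact fun h => hj (hf h)
  · intro h
    exact absurd (Finset.mem_univ i) h

/-- the inclusion of the constants -/
noncomputable def toKA : KK L hL →+* KA F hL where
  toFun c := ⟨rho (c : GG), rho_mem_KA hL F c⟩
  map_one' := Subtype.ext (by simp)
  map_zero' := Subtype.ext (by simp)
  map_mul' := fun a b => Subtype.ext (by simp)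
  map_add' := fun a b => Subtype.ext (by simp)

lemma toKA_coe (c : KK L hL) : ((toKA hL F c : KA F hL) : HR) = rho (c : GG) := rfl

lemma toKA_inj : Function.Injective (toKA hL F) := by
  intro a b h
  have h1 := congrArg (Subtype.val : KA F hL → HR) h
  rw [toKA_coe, toKA_coe] at h1
  exact Subtype.ext (rho_injective h1)

lemma phiA_map (P : MvPolynomial (Fin m) (KK L hL)) :
    phiA hL F (MvPolynomial.map (toKA hL F) P) = rho (phi (bs m) hL P) := by
  induction P using MvPolynomial.induction_on' with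
  | monomial g c =>
    rw [MvPolynomial.map_monomial, phiA_monomial, phi_monomial, map_mul, toKA_coe]
  | add p q hp hq => rw [map_add, map_add, hp, hq, map_add, map_add]

/-- monomials in a box -/
lemma mem_spanA {N : ℕ} {I : Type} [Fintype I] (q : I → GG) (P : MvPolynomial (Fin m) (KA F hL))
    (hP : ∀ g, P.coeff g ≠ 0 → ∀ i, g i ≤ N) (i : I) :
    phiA hL F P * rho (q i) ∈ Submodule.span (KA F hL)
      (Set.range fun a : I × (Fin m → Fin (N + 1)) =>
        rho (ch (bs m) hL (cf (uu 0 a.2)) * q a.1)) := by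
  rw [phiA_eq, Finset.sum_mul]
  refine Submodule.sum_mem _ fun g hg => ?_
  rw [mul_assoc]
  have h1 := hP g (MvPolynomial.mem_support_iff.1 hg)
  have h2 : cf g = cf (uu 0 (fun i => (⟨g i, by
      have := h1 i
      omega⟩ : Fin (N + 1)))) := by
    congr 1
    ext j
    unfold uu
    rw [Finsupp.equivFunOnFinite_symm_apply_apply, add_zero]
  refine Submodule.smul_mem _ (P.coeff g) (Submodule.subset_span ⟨(i, fun i => (⟨g i, by
      have := h1 i
      omega⟩ : Fin (N + 1))), ?_⟩)
  simp only
  rw [← h2, map_mul]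

/-- **linear forms in integers without relations, algebraic coefficients** -/
theorem ndA (hF : FiniteDimensional ℚ F) {I : Type} [Fintype I] (q : I → GG) (i0 : I)
    (E : I → MvPolynomial (Fin m) (KA F hL)) (g : Fin m →₀ ℕ) (s σ : ℝ)
    (hli : ∀ A : I → MvPolynomial (Fin m) (KK L hL), ∑ i, phi (bs m) hL (A i) * q i = 0 →
      ∀ i, A i = 0)
    (hfin : ∀ v i, q i ∈ Sv (bs m) L (some v) 0) (hint : ∀ i, Sint (bs m) L (q i))
    (hinf : ∀ i, q i ∈ Sv (bs m) L none (-s)) (hg : (E i0).coeff g ≠ 0)
    (hΦ : ∑ i, phiA hL F (E i) * rho (q i) ∈ SR L σ) :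
    Real.log (hv g) + σ ≤ ((Fintype.card I : ℝ) - 1) * s := by
  classical
  -- the leading exponent
  have hE0 : E i0 ≠ 0 := by
    intro h
    rw [h, MvPolynomial.coeff_zero] at hg
    exact hg rfl
  obtain ⟨γ, hγ0, hγm⟩ := exists_leadA hE0
  have hlog : Real.log (hv g) ≤ Real.log (hv γ) :=
    Real.log_le_log (by exact_mod_cast hv_pos g) (by exact_mod_cast hγm g hg)
  refine le_trans (add_le_add_left hlog σ) ?_
  by_contra hcon
  rw [not_le] at hcon
  set Φ : HR := ∑ i, phiA hL F (E i) * rho (q i) with hΦdef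
  -- the size of the exponents
  obtain ⟨D, hD⟩ : ∃ D : ℕ, ∀ i g, (E i).coeff g ≠ 0 → ∀ v, g v ≤ D := by
    refine ⟨∑ i, ∑ g ∈ (E i).support, ∑ v, g v, fun i g hg v => ?_⟩
    refine le_trans (Finset.single_le_sum (f := fun v => g v) (fun _ _ => Nat.zero_le _)
      (Finset.mem_univ v)) ?_
    refine le_trans (Finset.single_le_sum (f := fun g : Fin m →₀ ℕ => ∑ v, g v)
      (fun _ _ => Nat.zero_le _) (MvPolynomial.mem_support_iff.2 hg)) ?_
    exact Finset.single_le_sum (f := fun i => ∑ g ∈ (E i).support, ∑ v, g v)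
      (fun _ _ => Nat.zero_le _) (Finset.mem_univ i)
  have hγD : ∀ v, γ v ≤ D := hD i0 γ hγ0
  obtain ⟨N, hN⟩ := exists_box m D (Fintype.card I * s)
    (Real.log (hv γ) + σ + s - Fintype.card I * s) (by linarith only [hcon])
  set J1 : Type := Fin m → Fin (N + 1) with hJ1
  set J2 : Type := Fin m → Fin (N + D + 1) with hJ2
  set e : J1 → I × J2 := fun ν => (i0, shf γ hγD ν) with he
  have hei : Function.Injective e := fun a b h => shf_inj γ hγD (congrArg Prod.snd h)
  set x : I × J2 → GG := fun a => ch (bs m) hL (cf (uu 0 a.2)) * q a.1 with hx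
  set z : I × J2 → HR := Function.extend e (fun ν => rho (ch (bs m) hL (cf (uu 0 ν))) * Φ)
    (fun a => rho (x a)) with hz
  -- independence of the coordinates
  have hxli : ∀ c : I × J2 → KK L hL, ∑ a, (c a : GG) * x a = 0 → ∀ a, c a = 0 := by
    intro c hc a
    have h1 := hli (fun i => ∑ μ : J2, MvPolynomial.monomial (uu 0 μ) (c (i, μ))) (by
      rw [← hc, Fintype.sum_prod_type]
      refine Finset.sum_congr rfl fun i _ => ?_
      rw [phi_as_sum, Finset.sum_mul]
      refine Finset.sum_congr rfl fun μ _ => ?_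
      rw [hx]
      simp only
      rw [mul_assoc]) a.1
    have h2 := coeff_sum_mono hL (uu 0) (uu_inj 0) (fun μ : J2 => c (a.1, μ)) a.2
    rw [h1, MvPolynomial.coeff_zero] at h2
    exact h2.symm
  have hxliA := fun c => ext_li hL F hF x hxli c
  -- relations
  have hrel : ∀ P : I → MvPolynomial (Fin m) (KA F hL),
      ∑ i, phiA hL F (P i) * rho (q i) = 0 → ∀ i, P i = 0 := by
    intro P hP i
    obtain ⟨D', hD'⟩ : ∃ D' : ℕ, ∀ i g, (P i).coeff g ≠ 0 → ∀ v, g v ≤ D' := by
      refine ⟨∑ i, ∑ g ∈ (P i).support, ∑ v, g v, fun i g hg v => ?_⟩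
      refine le_trans (Finset.single_le_sum (f := fun v => g v) (fun _ _ => Nat.zero_le _)
        (Finset.mem_univ v)) ?_
      refine le_trans (Finset.single_le_sum (f := fun g : Fin m →₀ ℕ => ∑ v, g v)
        (fun _ _ => Nat.zero_le _) (MvPolynomial.mem_support_iff.2 hg)) ?_
      exact Finset.single_le_sum (f := fun i => ∑ g ∈ (P i).support, ∑ v, g v)
        (fun _ _ => Nat.zero_le _) (Finset.mem_univ i)
    set x' : I × (Fin m → Fin (D' + 1)) → GG :=
      fun a => ch (bs m) hL (cf (uu 0 a.2)) * q a.1 with hx'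
    have hx'li : ∀ c : I × (Fin m → Fin (D' + 1)) → KK L hL, ∑ a, (c a : GG) * x' a = 0 →
        ∀ a, c a = 0 := by
      intro c hc a
      have h1 := hli (fun i => ∑ μ : Fin m → Fin (D' + 1),
          MvPolynomial.monomial (uu 0 μ) (c (i, μ))) (by
        rw [← hc, Fintype.sum_prod_type]
        refine Finset.sum_congr rfl fun i _ => ?_
        rw [phi_as_sum, Finset.sum_mul]
        refine Finset.sum_congr rfl fun μ _ => ?_
        rw [hx']
        simp only
        rw [mul_assoc]) a.1
      have h2 := coeff_sum_mono hL (uu 0) (uu_inj 0)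
        (fun μ : Fin m → Fin (D' + 1) => c (a.1, μ)) a.2
      rw [h1, MvPolynomial.coeff_zero] at h2
      exact h2.symm
    have hPi : ∀ i, P i = ∑ μ : Fin m → Fin (D' + 1),
        MvPolynomial.monomial (uu 0 μ) ((P i).coeff (uu 0 μ)) := by
      intro i
      refine MvPolynomial.ext _ _ fun g => ?_
      by_cases hg : ∃ μ : Fin m → Fin (D' + 1), uu 0 μ = g
      · obtain ⟨μ, rfl⟩ := hg
        exact (coeff_sum_monoA hL F (uu 0) (uu_inj 0) (fun μ => (P i).coeff (uu 0 μ)) μ).symm
      · rw [MvPolynomial.coeff_sum, Finset.sum_eq_zero fun μ _ => by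
          rw [MvPolynomial.coeff_monomial, if_neg fun h => hg ⟨μ, h⟩]]
        by_contra hne
        apply hg
        have h1 := hD' i g hne
        refine ⟨fun v => ⟨g v, by
          have := h1 v
          omega⟩, ?_⟩
        ext j
        unfold uu
        rw [Finsupp.equivFunOnFinite_symm_apply_apply, add_zero]
    have h1 := ext_li hL F hF x' hx'li (fun a => (P a.1).coeff (uu 0 a.2)) (by
      rw [← hP, Fintype.sum_prod_type]
      refine Finset.sum_congr rfl fun i _ => ?_
      conv_rhs => rw [hPi i]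
      rw [phiA_as_sum, Finset.sum_mul]
      refine Finset.sum_congr rfl fun μ _ => ?_
      rw [hx']
      simp only
      rw [map_mul, mul_assoc])
    rw [hPi i]
    refine Finset.sum_eq_zero fun μ _ => ?_
    rw [h1 (i, μ), map_zero]
  have hzli : ∀ c : I × J2 → KA F hL, ∑ a, (c a : HR) * z a = 0 → ∀ a, c a = 0 := by
    intro c hc
    set G : MvPolynomial (Fin m) (KA F hL) :=
      ∑ ν : J1, MvPolynomial.monomial (uu 0 ν) (c (e ν)) with hG
    set c' : I × J2 → KA F hL := Function.extend e (fun _ => 0) c with hc'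
    have h1 : ∑ a, (c' a : HR) * rho (x a) + phiA hL F G * Φ = 0 := by
      rw [← hc, hG, phiA_as_sum]
      have h2 : ∀ a, (c a : HR) * z a =
          Function.extend e (fun ν => (c (e ν) : HR) * (rho (ch (bs m) hL (cf (uu 0 ν))) * Φ))
            (fun a => (c a : HR) * rho (x a)) a := by
        intro a
        by_cases ha : ∃ ν, e ν = a
        · obtain ⟨ν, rfl⟩ := ha
          rw [hz, hei.extend_apply, hei.extend_apply]
        · rw [hz, Function.extend_apply' _ _ _ ha, Function.extend_apply' _ _ _ ha]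
      have h3 : ∀ a, (c' a : HR) * rho (x a) =
          Function.extend e (fun _ => (0 : HR)) (fun a => (c a : HR) * rho (x a)) a := by
        intro a
        by_cases ha : ∃ ν, e ν = a
        · obtain ⟨ν, rfl⟩ := ha
          rw [hc', hei.extend_apply, hei.extend_apply, ZeroMemClass.coe_zero, zero_mul]
        · rw [hc', Function.extend_apply' _ _ _ ha, Function.extend_apply' _ _ _ ha]
      rw [Finset.sum_congr rfl fun a _ => h2 a, Finset.sum_congr rfl fun a _ => h3 a,
        sum_ext e hei, sum_ext e hei, add_assoc, Finset.sum_mul, ← Finset.sum_add_distrib]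
      congr 1
      refine Finset.sum_congr rfl fun ν _ => ?_
      ring
    have h4 := hrel (fun i => ∑ μ : J2, MvPolynomial.monomial (uu 0 μ) (c' (i, μ)) + G * E i) (by
      rw [← h1, Fintype.sum_prod_type, hΦdef, Finset.mul_sum, ← Finset.sum_add_distrib]
      refine Finset.sum_congr rfl fun i _ => ?_
      rw [map_add, phiA_as_sum, map_mul, add_mul, mul_assoc, Finset.sum_mul]
      congr 1
      refine Finset.sum_congr rfl fun μ _ => ?_
      rw [hx]
      simp only
      rw [map_mul, mul_assoc])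
    have hG0 : G = 0 := by
      by_contra hne
      obtain ⟨ν, hν0, hνm⟩ := exists_leadA hne
      have h5 := congrArg (MvPolynomial.coeff (ν + γ)) (h4 i0)
      obtain ⟨ν', hν'⟩ : ∃ ν' : J1, uu 0 ν' = ν := by
        by_contra hcon2
        push Not at hcon2
        apply hν0
        rw [hG, MvPolynomial.coeff_sum]
        refine Finset.sum_eq_zero fun a _ => ?_
        rw [MvPolynomial.coeff_monomial, if_neg (hcon2 a)]
      have h6 : (∑ μ : J2, MvPolynomial.monomial (uu 0 μ) (c' (i0, μ)) :
          MvPolynomial (Fin m) (KA F hL)).coeff (ν + γ) = 0 := by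
        have h7 := coeff_sum_monoA hL F (uu 0) (uu_inj 0) (fun μ : J2 => c' (i0, μ))
          (shf γ hγD ν')
        rw [uu_shf, hν'] at h7
        rw [h7]
        have h8 : ((i0, shf γ hγD ν') : I × J2) = e ν' := rfl
        rw [h8, hc', hei.extend_apply]
      rw [MvPolynomial.coeff_add, h6, zero_add, leadA G (E i0) hνm hγm,
        MvPolynomial.coeff_zero] at h5
      exact (mul_ne_zero hν0 hγ0) h5
    have h9 : ∀ ν, c (e ν) = 0 := by
      intro ν
      have h10 := coeff_sum_monoA hL F (uu 0) (uu_inj 0) (fun ν : J1 => c (e ν)) ν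
      rw [← h10, ← hG, hG0, MvPolynomial.coeff_zero]
    have h11 := hxliA c' (by
      rw [hG0, map_zero, zero_mul, add_zero] at h1
      exact h1)
    intro a
    by_cases ha : ∃ ν, e ν = a
    · obtain ⟨ν, rfl⟩ := ha
      exact h9 ν
    · have h12 := h11 a
      rw [hc', Function.extend_apply' _ _ _ ha] at h12
      exact h12
  have hzsp : ∀ a, z a ∈ Submodule.span (KA F hL) (Set.range fun a => rho (x a)) := by
    intro a
    by_cases ha : ∃ ν, e ν = a
    · obtain ⟨ν, rfl⟩ := ha
      rw [hz, hei.extend_apply, hΦdef, Finset.mul_sum]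
      refine Submodule.sum_mem _ fun i _ => ?_
      have h1 : rho (ch (bs m) hL (cf (uu 0 ν))) * (phiA hL F (E i) * rho (q i)) =
          phiA hL F (MvPolynomial.monomial (uu 0 ν) 1 * E i) * rho (q i) := by
        rw [map_mul, phiA_monomial, OneMemClass.coe_one, one_mul, mul_assoc]
      rw [h1]
      refine mem_spanA hL F q _ (fun g' hg' v => ?_) i
      rw [MvPolynomial.coeff_monomial_mul'] at hg'
      split_ifs at hg' with h2
      · rw [one_mul] at hg'
        have h3 := hD i _ hg' v
        rw [Finsupp.tsub_apply] at h3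
        have h4 : uu 0 ν v ≤ N := by
          unfold uu
          rw [Finsupp.equivFunOnFinite_symm_apply_apply]
          have := (ν v).2
          omega
        omega
      · exact absurd rfl hg'
    · rw [hz, Function.extend_apply' _ _ _ ha]
      exact Submodule.subset_span ⟨a, rfl⟩
  have hexp : ∀ a, ∃ c : I × J2 → KA F hL, z a = ∑ j, (c j : HR) * rho (x j) := by
    intro a
    obtain ⟨c, hc⟩ := (Submodule.mem_span_range_iff_exists_fun (KA F hL)).1 (hzsp a)
    exact ⟨c, hc.symm⟩
  -- weights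
  set w0 : I × J2 → ℝ := fun a => lv (bs m) none (cf (uu 0 a.2)) - s with hw0
  set w1 : J1 → ℝ := fun ν => lv (bs m) none (cf (uu 0 ν)) + σ with hw1
  have hxI : ∀ a, x a ∈ Sv (bs m) L none (w0 a) := fun a =>
    (filt_v hL none).mul_mem (ch_mem hL none _) (hinf _)
  have hmain := mova_thm m (bs m) L hL F hF (I × J2) inferInstance x z
    (fun v a => lv (bs m) (some v) (cf (uu 0 a.2)))
    (Function.extend e w1 w0) hxli hzli hexp
    (fun v a => by
      have h1 := (filt_v hL (some v)).mul_mem (ch_mem (B := bs m) hL (some v)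
        (cf (uu 0 a.2))) (hfin v a.1)
      rw [add_zero] at h1
      exact h1)
    (fun a => by
      by_cases ha : ∃ ν, e ν = a
      · obtain ⟨ν, rfl⟩ := ha
        rw [hz, hei.extend_apply, hei.extend_apply]
        exact SR_mul hL (SR_rho (ch_mem hL none _)) hΦ
      · rw [hz, Function.extend_apply' _ _ _ ha, Function.extend_apply' _ _ _ ha]
        exact SR_rho (hxI a))
    (fun a => Sint.mul hL (ch_sint hL _) (hint _))
    (∑ a, |w0 a|) (fun a => by
      refine SR_anti hL ?_ (SR_rho (hxI a))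
      have h1 : |w0 a| ≤ ∑ a, |w0 a| :=
        Finset.single_le_sum (f := fun a => |w0 a|) (fun _ _ => abs_nonneg _) (Finset.mem_univ a)
      have h2 := neg_abs_le (w0 a)
      linarith only [h1, h2])
  have hs : ∀ g : Fin m → ℝ, ∑ v : Fin m, lv (bs m) (some v) g + lv (bs m) none g = 0 := by
    intro g
    have h1 := lv_sum (B := bs m) g
    rw [Fintype.sum_option] at h1
    linarith only [h1]
  have c1 : (Fintype.card J1 : ℝ) = ((N : ℝ) + 1) ^ m := by
    show (Fintype.card (Fin m → Fin (N + 1)) : ℝ) = _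
    rw [Fintype.card_fun, Fintype.card_fin, Fintype.card_fin]
    push_cast
    rfl
  have c2 : (Fintype.card J2 : ℝ) = ((N : ℝ) + D + 1) ^ m := by
    show (Fintype.card (Fin m → Fin (N + D + 1)) : ℝ) = _
    rw [Fintype.card_fun, Fintype.card_fin, Fintype.card_fin]
    push_cast
    rfl
  rw [sum_ext e hei, Finset.sum_comm] at hmain
  have h1 : ∑ a : I × J2, w0 a + ∑ a : I × J2, ∑ v : Fin m, lv (bs m) (some v) (cf (uu 0 a.2)) =
      -(((N : ℝ) + D + 1) ^ m * (Fintype.card I * s)) := by
    rw [← Finset.sum_add_distrib]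
    have h2 : ∀ a : I × J2, w0 a + ∑ v : Fin m, lv (bs m) (some v) (cf (uu 0 a.2)) = -s := by
      intro a
      have h3 := hs (cf (uu 0 a.2))
      rw [hw0]
      simp only
      linarith only [h3]
    rw [Finset.sum_congr rfl fun a _ => h2 a, Finset.sum_const, nsmul_eq_mul, Finset.card_univ,
      Fintype.card_prod, Nat.cast_mul, c2]
    ring
  have h2 : ∑ ν : J1, (w1 ν - w0 (e ν)) =
      ((N : ℝ) + 1) ^ m * (Real.log (hv γ) + σ + s) := by
    have h3 : ∀ ν : J1, w1 ν - w0 (e ν) = Real.log (hv γ) + σ + s := by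
      intro ν
      rw [hw1, hw0, he]
      simp only
      rw [uu_shf, lv_cf_add]
      ring
    rw [Finset.sum_congr rfl fun a _ => h3 a, Finset.sum_const, nsmul_eq_mul, Finset.card_univ, c1]
  have h3 : ((N : ℝ) + 1) ^ m * (Fintype.card I * s +
      (Real.log (hv γ) + σ + s - Fintype.card I * s)) =
      ((N : ℝ) + 1) ^ m * (Real.log (hv γ) + σ + s) := by
    congr 1
    ring
  rw [h3] at hN
  linarith only [hmain, h1, h2, hN]

end

end Pool.Agent.Y760.ST
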