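import Pool.Agent.Y760.RT.Fi
import Pool.Agent.TH507.ZS.Inst

/-!
# Project ST: sharp linear independence measures for values of Dirichlet series at large integers

Statements of the parts.
-/

set_option autoImplicit false

namespace Pool.Agent.Y760.ST

open Filter Topology Pool.Agent.TH932.Abs Pool.Agent.TH932.Germs Pool.Agent.TH932.Chi
open Pool.Agent.TH796.AL Pool.Agent.Y760.ZG Pool.Agent.Y760.RT

/-- ST-ND: linear forms in integers without polynomial relations are not small -/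
def NdStmt : Prop :=
  ∀ (m : ℕ) (L : ℕ → ℝ) (hL : Tendsto L atTop atTop) (I : Type) [Fintype I] (q : I → GG) (i0 : I)
    (E : I → MvPolynomial (Fin m) (KK L hL)) (g : Fin m →₀ ℕ) (s σ : ℝ),
    (∀ A : I → MvPolynomial (Fin m) (KK L hL), ∑ i, phi (bs m) hL (A i) * q i = 0 →
      ∀ i, A i = 0) →
    (∀ v i, q i ∈ Sv (bs m) L (some v) 0) → (∀ i, Sint (bs m) L (q i)) →
    (∀ i, q i ∈ Sv (bs m) L none (-s)) → (E i0).coeff g ≠ 0 →
    ∑ i, phi (bs m) hL (E i) * q i ∈ Sv (bs m) L none σ →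
    Real.log (hv g) + σ ≤ ((Fintype.card I : ℝ) - 1) * s

/-- ST-RS: the size of the relation between integers with one relation -/
def RsStmt : Prop :=
  ∀ (m : ℕ) (L : ℕ → ℝ) (hL : Tendsto L atTop atTop) (J : Type) [Fintype J] (q : J → GG)
    (A : J → MvPolynomial (Fin m) (KK L hL)) (j0 : J) (g : Fin m →₀ ℕ) (s : ℝ),
    ∑ j, phi (bs m) hL (A j) * q j = 0 →
    (∀ b : J → MvPolynomial (Fin m) (KK L hL), ∑ j, phi (bs m) hL (b j) * q j = 0 →
      ∃ f, ∀ j, b j = f * A j) →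
    (∀ d, (∀ j, d ∣ A j) → IsUnit d) →
    (∀ v j, q j ∈ Sv (bs m) L (some v) 0) → (∀ j, Sint (bs m) L (q j)) →
    (∀ j, q j ∈ Sv (bs m) L none (-s)) → (A j0).coeff g ≠ 0 →
    Real.log (hv g) ≤ ((Fintype.card J : ℝ) - 1) * s

/-- ST-AL: a maximal independent subfamily and primitive relations for the other elements -/
def AlStmt : Prop :=
  ∀ (R K : Type) [CommRing R] [IsDomain R] [UniqueFactorizationMonoid R] [Field K] (φ : R →+* K),
    Function.Injective φ → ∀ (r : ℕ) (q : Fin r → K), (∃ i, q i ≠ 0) →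
    ∃ I : Finset (Fin r), I.Nonempty ∧
      (∀ A : I → R, ∑ i : I, φ (A i) * q i = 0 → ∀ i, A i = 0) ∧
      ∀ j, j ∉ I → ∃ A : Option I → R, A none ≠ 0 ∧
        ∑ x : Option I, φ (A x) * q (x.elim j (fun i => (i : Fin r))) = 0 ∧
        (∀ b : Option I → R, ∑ x : Option I, φ (b x) * q (x.elim j (fun i => (i : Fin r))) = 0 →
          ∃ f, ∀ x, b x = f * A x) ∧
        ∀ d, (∀ x, d ∣ A x) → IsUnit d

/-- the nonvanishing condition on a family of coefficient sequences -/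
def NV (r : ℕ) (c : Fin (r + 1) → ℕ → ℚ) (T : ℝ) : Prop :=
  ∀ s : ℝ, T ≤ s → ∀ h : ℕ, 1 ≤ h → Real.log h ≤ ((r : ℝ) + 1) ^ 2 * s →
    ∀ b : Fin (r + 1) → ℚ, b ≠ 0 →
      ∃ l : ℕ, 1 ≤ l ∧ Real.log l ≤ s ∧ Nat.Coprime h l ∧ ∑ i, b i * c i l ≠ 0

/-- ST-Z: multiplicative functions with different values at the primes satisfy the condition -/
def ZStmt : Prop :=
  ∀ (r l0 : ℕ) (c : Fin (r + 1) → ℕ → ℚ), (∀ i, c i 1 = 1) →
    (∀ i a b, Nat.Coprime a b → c i (a * b) = c i a * c i b) →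
    (∀ l, l.Prime → l0 < l → ∀ i j, i ≠ j → c i l ≠ c j l) →
    ∃ T : ℝ, 0 < T ∧ NV r c T

/-- the Dirichlet series of the parts: the coefficients of the product of the `dser (f k⁻ʲ)` -/
noncomputable def sh (f : ArithmeticFunction ℚ) (j : ℕ) : ArithmeticFunction ℚ :=
  ⟨fun k => if k = 0 then 0 else f k / (k : ℚ) ^ j, by simp⟩

/-- the coefficients of the product of the powers `F(n + j) ^ e_j` -/
noncomputable def mo (f : ArithmeticFunction ℚ) (h : ℕ) (e : Fin h →₀ ℕ) : ArithmeticFunction ℚ :=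
  ∏ j : Fin h, (sh f j) ^ e j

/-- ST-FAM: the family of the monomials -/
def FamStmt : Prop :=
  ∀ (f : ArithmeticFunction ℚ), f.IsMultiplicative → Pool.Agent.TH507.ZS.PB f →
    ∀ κ : ℚ, κ ≠ 0 → (∀ p : ℕ, p.Prime → f p = κ) → ∀ h d : ℕ,
    (∀ e : Fin h →₀ ℕ, (mo f h e).IsMultiplicative ∧ Pool.Agent.TH507.ZS.PB (mo f h e) ∧
      ∃ n1 : ℕ, ∀ n, n1 ≤ n → Pool.Agent.TH507.ZS.dser (mo f h e) n =
        ∏ j : Fin h, Pool.Agent.TH507.ZS.dser f (n + j) ^ e j) ∧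
    ∀ e e' : Fin h →₀ ℕ, (∑ j, e j) ≤ d → (∑ j, e' j) ≤ d → e ≠ e' →
      ∀ p : ℕ, p.Prime → d < p → mo f h e p ≠ mo f h e' p

end Pool.Agent.Y760.ST
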